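import Mathlib

namespace Pool.Agent.X84.Ex

open Finset

/-- All integer vectors of small `l¹` norm lie in a finite set of controlled size. -/
theorem words (s : ℕ) : ∀ l : ℕ, ∃ A : Finset (Fin s → ℤ), A.card ≤ (2 * s + 1) ^ l ∧
    ∀ a : Fin s → ℤ, ∑ i, |a i| ≤ (l : ℤ) → a ∈ A := by
  classical
  intro l
  induction l with
  | zero =>
    refine ⟨{0}, by simp, fun a ha => ?_⟩
    have h0 : ∑ i, |a i| = 0 := le_antisymm (by simpa using ha) (Finset.sum_nonneg fun i _ => abs_nonneg _)
    rw [Finset.sum_eq_zero_iff_of_nonneg (fun i _ => abs_nonneg _)] at h0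
    rw [Finset.mem_singleton]
    funext i
    exact abs_eq_zero.mp (h0 i (Finset.mem_univ i))
  | succ l ih =>
    obtain ⟨A, hA, hA'⟩ := ih
    let g : (Fin s → ℤ) × Option (Fin s × Bool) → (Fin s → ℤ) := fun p =>
      match p.2 with
      | none => p.1
      | some (i, true) => p.1 + Pi.single i 1
      | some (i, false) => p.1 - Pi.single i 1
    refine ⟨(A ×ˢ (Finset.univ : Finset (Option (Fin s × Bool)))).image g, ?_, fun a ha => ?_⟩
    · refine Finset.card_image_le.trans ?_
      rw [Finset.card_product, Finset.card_univ, Fintype.card_option, Fintype.card_prod, Fintype.card_fin, Fintype.card_bool, pow_succ, Nat.mul_comm s 2]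
      exact Nat.mul_le_mul_right _ hA
    · rw [Finset.mem_image]
      by_cases h0 : ∃ i, a i ≠ 0
      · obtain ⟨i, hi⟩ := h0
        rcases lt_or_gt_of_ne hi with hneg | hpos
        · refine ⟨(a + Pi.single i 1, some (i, false)), ?_, ?_⟩
          · rw [Finset.mem_product]
            refine ⟨hA' _ ?_, Finset.mem_univ _⟩
            have h1 : ∑ j, |(a + Pi.single i 1 : Fin s → ℤ) j| = ∑ j, |a j| - 1 := by
              rw [← Finset.add_sum_erase _ _ (Finset.mem_univ i), ← Finset.add_sum_erase _ (fun j => |a j|) (Finset.mem_univ i)]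
              have h2 : ∑ x ∈ Finset.univ.erase i, |(a + Pi.single i 1 : Fin s → ℤ) x| = ∑ x ∈ Finset.univ.erase i, |a x| := by
                refine Finset.sum_congr rfl fun j hj => ?_
                have : j ≠ i := Finset.ne_of_mem_erase hj
                simp [this]
              rw [h2]
              have h3 : |(a + Pi.single i 1 : Fin s → ℤ) i| = |a i| - 1 := by
                simp only [Pi.add_apply, Pi.single_eq_same]
                rw [abs_of_nonpos (by omega), abs_of_neg hneg]; ring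
              rw [h3]; ring
            rw [h1]; push_cast at ha; linarith
          · simp [g]
        · refine ⟨(a - Pi.single i 1, some (i, true)), ?_, ?_⟩
          · rw [Finset.mem_product]
            refine ⟨hA' _ ?_, Finset.mem_univ _⟩
            have h1 : ∑ j, |(a - Pi.single i 1 : Fin s → ℤ) j| = ∑ j, |a j| - 1 := by
              rw [← Finset.add_sum_erase _ _ (Finset.mem_univ i), ← Finset.add_sum_erase _ (fun j => |a j|) (Finset.mem_univ i)]
              have h2 : ∑ x ∈ Finset.univ.erase i, |(a - Pi.single i 1 : Fin s → ℤ) x| = ∑ x ∈ Finset.univ.erase i, |a x| := by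
                refine Finset.sum_congr rfl fun j hj => ?_
                have : j ≠ i := Finset.ne_of_mem_erase hj
                simp [this]
              rw [h2]
              have h3 : |(a - Pi.single i 1 : Fin s → ℤ) i| = |a i| - 1 := by
                simp only [Pi.sub_apply, Pi.single_eq_same]
                rw [abs_of_nonneg (by omega), abs_of_pos hpos]
              rw [h3]; ring
            rw [h1]; push_cast at ha; linarith
          · simp [g]
      · push Not at h0
        refine ⟨(a, none), ?_, rfl⟩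
        rw [Finset.mem_product]
        refine ⟨hA' a ?_, Finset.mem_univ _⟩
        simp [h0]

/-- A linear equation has few solutions. -/
theorem eq_count (s N : ℕ) (a : Fin (s + 1) → ℤ) (i0 : Fin (s + 1)) (h0 : a i0 ≠ 0) (m : ℤ) :
    (Finset.univ.filter fun v : Fin (s + 1) → Fin N => ∑ i, a i * ((v i : ℕ) : ℤ) = m).card ≤ N ^ s := by
  classical
  have h1 : (Finset.univ : Finset (Fin s → Fin N)).card = N ^ s := by
    rw [Finset.card_univ, Fintype.card_fun, Fintype.card_fin, Fintype.card_fin]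
  rw [← h1]
  refine Finset.card_le_card_of_injOn (fun v => fun j => v (i0.succAbove j)) (fun _ _ => Finset.mem_coe.mpr (Finset.mem_univ _)) ?_
  intro v hv w hw hvw
  simp only [Finset.coe_filter, Finset.mem_univ, true_and, Set.mem_ofPred_eq] at hv hw
  rw [Fin.sum_univ_succAbove _ i0] at hv hw
  have h2 : ∀ j, v (i0.succAbove j) = w (i0.succAbove j) := fun j => congrFun hvw j
  have h3 : a i0 * ((v i0 : ℕ) : ℤ) = a i0 * ((w i0 : ℕ) : ℤ) := by
    have : ∑ j, a (i0.succAbove j) * ((v (i0.succAbove j) : ℕ) : ℤ) = ∑ j, a (i0.succAbove j) * ((w (i0.succAbove j) : ℕ) : ℤ) :=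
      Finset.sum_congr rfl fun j _ => by rw [h2 j]
    linarith
  have h4 : v i0 = w i0 := by
    have := mul_left_cancel₀ h0 h3
    exact Fin.ext (by exact_mod_cast this)
  funext i
  rcases Fin.eq_self_or_eq_succAbove i0 i with h | ⟨j, h⟩
  · rw [h]; exact h4
  · rw [h]; exact h2 j

/-- Few powers of a unit number away from one are close to a given unit number. -/
theorem near_count (N : ℕ) (k : ℕ) (hk : 0 < k) (hN : 128 * k ≤ N) (z u : ℂ) (hz : ‖z‖ = 1) (hu : ‖u‖ = 1)
    (hz1 : 1 / (2 * k : ℝ) ≤ ‖z - 1‖) :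
    ((Finset.univ.filter fun v : Fin N => ‖z ^ (v : ℕ) - u‖ < 1 / 2).card : ℝ) ≤ 0.55 * N := by
  classical
  have hkR : (0 : ℝ) < k := by exact_mod_cast hk
  have hpos : (0 : ℝ) < ‖z - 1‖ := lt_of_lt_of_le (by positivity) hz1
  have hzne : z ≠ 1 := by
    intro h; rw [h, sub_self, norm_zero] at hpos; exact lt_irrefl _ hpos
  have hgeom : ‖∑ v : Fin N, z ^ (v : ℕ)‖ ≤ 4 * k := by
    rw [Fin.sum_univ_eq_sum_range (fun n => z ^ n) N, geom_sum_eq hzne, norm_div]
    rw [div_le_iff₀ hpos]
    have h1 : ‖z ^ N - 1‖ ≤ 2 := by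
      refine (norm_sub_le _ _).trans ?_
      rw [norm_pow, hz, one_pow, norm_one]; norm_num
    have h2 : (2 : ℝ) ≤ 4 * k * ‖z - 1‖ := by
      have := mul_le_mul_of_nonneg_left hz1 (by positivity : (0 : ℝ) ≤ 4 * k)
      have h3 : 4 * (k : ℝ) * (1 / (2 * k)) = 2 := by field_simp; norm_num
      linarith
    linarith
  have hsum : ∑ v : Fin N, ‖z ^ (v : ℕ) - u‖ ^ 2 ≥ 2 * N - 8 * k := by
    have h1 : ∀ v : Fin N, ‖z ^ (v : ℕ) - u‖ ^ 2 = 2 - 2 * (z ^ (v : ℕ) * (starRingEnd ℂ) u).re := by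
      intro v
      rw [Complex.sq_norm, Complex.normSq_sub, ← Complex.sq_norm, ← Complex.sq_norm, norm_pow, hz, hu]
      norm_num
    rw [Finset.sum_congr rfl fun v _ => h1 v, Finset.sum_sub_distrib, ← Finset.mul_sum, Finset.sum_const, Finset.card_univ, Fintype.card_fin, nsmul_eq_mul]
    have h2 : ∑ v : Fin N, (z ^ (v : ℕ) * (starRingEnd ℂ) u).re = ((∑ v : Fin N, z ^ (v : ℕ)) * (starRingEnd ℂ) u).re := by
      rw [Finset.sum_mul, Complex.re_sum]
    have h3 : ((∑ v : Fin N, z ^ (v : ℕ)) * (starRingEnd ℂ) u).re ≤ 4 * k := by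
      refine (Complex.re_le_norm _).trans ?_
      rw [norm_mul, RCLike.norm_conj, hu, mul_one]
      exact hgeom
    rw [h2]
    linarith
  have hup : ∑ v : Fin N, ‖z ^ (v : ℕ) - u‖ ^ 2 ≤ 4 * N - (15 / 4) * (Finset.univ.filter fun v : Fin N => ‖z ^ (v : ℕ) - u‖ < 1 / 2).card := by
    have h1 : ∀ v : Fin N, ‖z ^ (v : ℕ) - u‖ ^ 2 ≤ 4 - (15 / 4) * (if ‖z ^ (v : ℕ) - u‖ < 1 / 2 then (1 : ℝ) else 0) := by
      intro v
      have h4 : ‖z ^ (v : ℕ) - u‖ ≤ 2 := by
        refine (norm_sub_le _ _).trans ?_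
        rw [norm_pow, hz, one_pow, hu]; norm_num
      have h5 := norm_nonneg (z ^ (v : ℕ) - u)
      split_ifs with h
      · nlinarith
      · nlinarith
    refine (Finset.sum_le_sum fun v _ => h1 v).trans (le_of_eq ?_)
    rw [Finset.sum_sub_distrib, ← Finset.mul_sum, Finset.sum_const, Finset.card_univ, Fintype.card_fin, nsmul_eq_mul, Finset.sum_boole]
    ring
  have hNR : 128 * (k : ℝ) ≤ N := by exact_mod_cast hN
  linarith

/-- Few tuples have most of their entries in a set of density at most `0.55`. -/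
theorem tuple_count (N q : ℕ) (hN : 0 < N) (S : Fin N → Prop) [DecidablePred S]
    (hS : ((Finset.univ.filter S).card : ℝ) ≤ 0.55 * N) :
    ((Finset.univ.filter fun v : Fin (8 * q) → Fin N => 7 * q ≤ (Finset.univ.filter fun i => S (v i)).card).card : ℝ)
      ≤ (N : ℝ) ^ (8 * q) * (1 / 7) ^ q := by
  classical
  set g : Fin N → ℝ := fun x => if S x then 7 else 1 with hg
  have h1 : ∑ x, g x ≤ 4.3 * N := by
    have : ∀ x, g x = 1 + 6 * (if S x then (1 : ℝ) else 0) := by
      intro x; simp only [hg]; split_ifs <;> norm_num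
    rw [Finset.sum_congr rfl fun x _ => this x, Finset.sum_add_distrib, ← Finset.mul_sum, Finset.sum_boole]
    simp only [Finset.sum_const, Finset.card_univ, Fintype.card_fin, nsmul_eq_mul, mul_one]
    linarith
  have h0 : (0 : ℝ) ≤ ∑ x, g x := Finset.sum_nonneg fun x _ => by simp only [hg]; split_ifs <;> norm_num
  have h2 : (∑ x, g x) ^ (8 * q) = ∑ v : Fin (8 * q) → Fin N, ∏ i, g (v i) := Fintype.sum_pow g (8 * q)
  have h3 : ∀ v : Fin (8 * q) → Fin N, ∏ i, g (v i) = 7 ^ (Finset.univ.filter fun i => S (v i)).card := by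
    intro v
    simp only [hg]
    rw [Finset.prod_ite]
    simp
  have h4 : ((Finset.univ.filter fun v : Fin (8 * q) → Fin N => 7 * q ≤ (Finset.univ.filter fun i => S (v i)).card).card : ℝ) * 7 ^ (7 * q)
      ≤ ∑ v : Fin (8 * q) → Fin N, ∏ i, g (v i) := by
    rw [← nsmul_eq_mul, ← Finset.sum_const]
    refine (Finset.sum_le_sum (g := fun v => ∏ i, g (v i)) ?_).trans (Finset.sum_le_sum_of_subset_of_nonneg (Finset.filter_subset _ _) ?_)
    · intro v hv
      rw [h3 v]
      exact pow_le_pow_right₀ (by norm_num) (Finset.mem_filter.mp hv).2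
    · intro v _ _
      rw [h3 v]; positivity
  rw [← h2] at h4
  have h5 : (∑ x, g x) ^ (8 * q) ≤ (4.3 * N) ^ (8 * q) := pow_le_pow_left₀ h0 h1 _
  have h6 : (4.3 * (N : ℝ)) ^ (8 * q) ≤ (N : ℝ) ^ (8 * q) * (1 / 7) ^ q * 7 ^ (7 * q) := by
    rw [mul_pow, mul_comm, mul_assoc]
    refine mul_le_mul_of_nonneg_left ?_ (by positivity)
    rw [pow_mul, pow_mul (7 : ℝ) 7 q, ← mul_pow]
    exact pow_le_pow_left₀ (by positivity) (by norm_num) q
  have h7 : (0 : ℝ) < 7 ^ (7 * q) := by positivity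
  exact le_of_mul_le_mul_right ((h4.trans h5).trans h6) h7

/-- A finite net of the unit circle. -/
theorem net (n : ℕ) (hn : 0 < n) : ∃ E : Fin n → ℂ, (∀ a, ‖E a‖ = 1) ∧
    ∀ z : ℂ, ‖z‖ = 1 → ∃ a, ‖z - E a‖ ≤ 7 / n := by
  have hnR : (0 : ℝ) < n := by exact_mod_cast hn
  refine ⟨fun a => Complex.exp (((2 * Real.pi * (a : ℕ) / n - Real.pi : ℝ) : ℂ) * Complex.I), fun a => Complex.norm_exp_ofReal_mul_I _, ?_⟩
  intro z hz
  have hpi := Real.pi_pos
  have h1 : 0 ≤ Complex.arg z + Real.pi := by have := Complex.neg_pi_lt_arg z; linarith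
  have h2 : Complex.arg z + Real.pi ≤ 2 * Real.pi := by have := Complex.arg_le_pi z; linarith
  have hzexp : z = Complex.exp ((Complex.arg z : ℂ) * Complex.I) := by
    conv_lhs => rw [← Complex.norm_mul_exp_arg_mul_I z]
    rw [hz]; simp
  set t : ℝ := (Complex.arg z + Real.pi) * n / (2 * Real.pi) with ht
  have ht0 : 0 ≤ t := by positivity
  have htn : t ≤ n := by
    rw [ht, div_le_iff₀ (by positivity)]
    nlinarith
  have key : ∀ a : ℕ, |t - a| ≤ 1 → ‖z - Complex.exp (((2 * Real.pi * (a : ℕ) / n - Real.pi : ℝ) : ℂ) * Complex.I)‖ ≤ 7 / n := by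
    intro a ha
    rw [hzexp]
    have h3 : Complex.exp ((Complex.arg z : ℂ) * Complex.I) - Complex.exp (((2 * Real.pi * (a : ℕ) / n - Real.pi : ℝ) : ℂ) * Complex.I)
        = Complex.exp (((2 * Real.pi * (a : ℕ) / n - Real.pi : ℝ) : ℂ) * Complex.I) *
          (Complex.exp (Complex.I * ((Complex.arg z - (2 * Real.pi * (a : ℕ) / n - Real.pi) : ℝ) : ℂ)) - 1) := by
      rw [mul_sub, mul_one, ← Complex.exp_add]
      congr 2
      push_cast; ring
    rw [h3, norm_mul, Complex.norm_exp_ofReal_mul_I, one_mul]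
    refine (Real.norm_exp_I_mul_ofReal_sub_one_le).trans ?_
    have h4 : Complex.arg z - (2 * Real.pi * (a : ℕ) / n - Real.pi) = (t - a) * (2 * Real.pi / n) := by
      rw [ht]; field_simp; ring
    rw [h4, Real.norm_eq_abs, abs_mul, abs_of_pos (by positivity : (0 : ℝ) < 2 * Real.pi / n)]
    calc |t - a| * (2 * Real.pi / n) ≤ 1 * (2 * Real.pi / n) := mul_le_mul_of_nonneg_right ha (by positivity)
      _ ≤ 7 / n := by
        rw [one_mul]
        exact div_le_div_of_nonneg_right (by have := Real.pi_lt_d2; linarith) hnR.le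
  by_cases hc : ⌊t⌋₊ < n
  · refine ⟨⟨⌊t⌋₊, hc⟩, key ⌊t⌋₊ ?_⟩
    have := Nat.floor_le ht0
    have := Nat.lt_floor_add_one t
    rw [abs_le]; constructor <;> linarith
  · have h5 : n ≤ ⌊t⌋₊ := not_lt.mp hc
    have h6 : (n : ℝ) ≤ t := le_trans (by exact_mod_cast h5) (Nat.floor_le ht0)
    have h7 : t = n := le_antisymm htn h6
    refine ⟨⟨n - 1, by omega⟩, key (n - 1) ?_⟩
    rw [Nat.cast_sub (by omega), h7]
    norm_num

theorem pow_sub_le (z w : ℂ) (hz : ‖z‖ = 1) (hw : ‖w‖ = 1) (n : ℕ) : ‖z ^ n - w ^ n‖ ≤ n * ‖z - w‖ := by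
  induction n with
  | zero => simp
  | succ n ih =>
    have h : z ^ (n + 1) - w ^ (n + 1) = z ^ n * (z - w) + (z ^ n - w ^ n) * w := by ring
    rw [h]
    refine (norm_add_le _ _).trans ?_
    rw [norm_mul, norm_mul, norm_pow, hz, hw, one_pow, one_mul, mul_one]
    push_cast
    linarith

end Pool.Agent.X84.Ex
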