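import Pool.Agent.X84.Ex.Block

namespace Pool.Agent.X84.Ex

open Finset

theorem eq_count' (s N : ℕ) (hs : 0 < s) (a : Fin s → ℤ) (i0 : Fin s) (h0 : a i0 ≠ 0) (m : ℤ) :
    (Finset.univ.filter fun v : Fin s → Fin N => ∑ i, a i * ((v i : ℕ) : ℤ) = m).card ≤ N ^ (s - 1) := by
  obtain ⟨t, rfl⟩ : ∃ t, s = t + 1 := ⟨s - 1, by omega⟩
  simpa using eq_count t N a i0 h0 m

theorem choose_j (l M k : ℕ) : ∃ j : ℕ, 1 ≤ j ∧ 128 * k ≤ 7 ^ j ∧ (16 * j + 81) ^ l * (4 * M + 2) ≤ 7 ^ j := by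
  have h1 : Filter.Tendsto (fun n : ℕ => (n : ℝ) ^ l / (7 : ℝ) ^ n) Filter.atTop (nhds 0) :=
    tendsto_pow_const_div_const_pow_of_one_lt l (by norm_num)
  have hC : (0 : ℝ) < (97 : ℝ) ^ l * (4 * M + 2) := by positivity
  have h2 : ∀ᶠ n : ℕ in Filter.atTop, (n : ℝ) ^ l / (7 : ℝ) ^ n < 1 / ((97 : ℝ) ^ l * (4 * M + 2)) :=
    h1.eventually_lt_const (by positivity)
  have h3 : ∀ᶠ n : ℕ in Filter.atTop, 128 * k ≤ n := Filter.eventually_ge_atTop _
  obtain ⟨j, hj2, hj3, hj1⟩ := (h2.and (h3.and (Filter.eventually_ge_atTop 1))).exists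
  refine ⟨j, hj1, hj3.trans (Nat.lt_pow_self (by norm_num)).le, ?_⟩
  have h4 : ((16 * j + 81 : ℕ) : ℝ) ≤ 97 * j := by
    have : 16 * j + 81 ≤ 97 * j := by omega
    exact_mod_cast this
  rw [div_lt_div_iff₀ (by positivity) hC, one_mul] at hj2
  have h5 : (((16 * j + 81) ^ l * (4 * M + 2) : ℕ) : ℝ) ≤ (7 : ℝ) ^ j := by
    push_cast
    calc (16 * (j : ℝ) + 81) ^ l * (4 * M + 2) ≤ (97 * j) ^ l * (4 * M + 2) := by
          refine mul_le_mul_of_nonneg_right (pow_le_pow_left₀ (by positivity) ?_ l) (by positivity)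
          push_cast at h4; exact h4
      _ = (j : ℝ) ^ l * (97 ^ l * (4 * M + 2)) := by rw [mul_pow]; ring
      _ ≤ _ := hj2.le
  exact_mod_cast h5

/-- The block lemma: a finite set of integers without short small relations, whose powers detect every unit
number away from one. -/
theorem block (l M k : ℕ) (hk : 0 < k) : ∃ (s : ℕ) (d : Fin s → ℤ), 2 ≤ s ∧
    (∀ a : Fin s → ℤ, a ≠ 0 → ∑ i, |a i| ≤ (l : ℤ) → (M : ℤ) < |∑ i, a i * d i|) ∧
    ∀ z u : ℂ, ‖z‖ = 1 → ‖u‖ = 1 → 1 / (k : ℝ) ≤ ‖z - 1‖ → (s : ℝ) / 32 ≤ ∑ i, ‖z ^ (d i) - u‖ := by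
  classical
  obtain ⟨j, hj1, hjk, hjl⟩ := choose_j l M k
  set N : ℕ := 7 ^ j with hN
  have hN0 : 0 < N := by positivity
  have hNR : (0 : ℝ) < N := by exact_mod_cast hN0
  have hkR : (0 : ℝ) < k := by exact_mod_cast hk
  set q : ℕ := j + 5 with hq
  obtain ⟨A, hA, hA'⟩ := words (8 * q) l
  obtain ⟨E1, hE1, hE1'⟩ := net (64 * N) (by positivity)
  obtain ⟨E2, hE2, hE2'⟩ := net 64 (by norm_num)
  set B1 : Finset (Fin (8 * q) → Fin N) := ((A.filter fun a => a ≠ 0) ×ˢ Finset.Icc (-(M : ℤ)) M).biUnion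
    fun p => Finset.univ.filter fun v : Fin (8 * q) → Fin N => ∑ i, p.1 i * ((v i : ℕ) : ℤ) = p.2 with hB1
  set B2 : Finset (Fin (8 * q) → Fin N) := (Finset.univ.filter fun p : Fin (64 * N) × Fin 64 => 1 / (2 * k : ℝ) ≤ ‖E1 p.1 - 1‖).biUnion
    fun p => Finset.univ.filter fun v : Fin (8 * q) → Fin N => 7 * q ≤ (Finset.univ.filter fun i => ‖E1 p.1 ^ (v i : ℕ) - E2 p.2‖ < 1 / 2).card with hB2
  have hc1 : B1.card ≤ (16 * j + 81) ^ l * (2 * M + 1) * N ^ (8 * q - 1) := by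
    refine Finset.card_biUnion_le_card_mul _ _ (N ^ (8 * q - 1)) ?_ |>.trans ?_
    · intro p hp
      rw [Finset.mem_product, Finset.mem_filter] at hp
      obtain ⟨i0, hi0⟩ := Function.ne_iff.mp hp.1.2
      exact eq_count' (8 * q) N (by omega) p.1 i0 hi0 p.2
    · refine Nat.mul_le_mul_right _ ?_
      rw [Finset.card_product]
      refine Nat.mul_le_mul ((Finset.card_filter_le _ _).trans (hA.trans (le_of_eq ?_))) (le_of_eq ?_)
      · congr 1; omega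
      · rw [Int.card_Icc]; omega
  have hc2 : (B2.card : ℝ) ≤ 4096 * N * ((N : ℝ) ^ (8 * q) * (1 / 7) ^ q) := by
    have h1 : (B2.card : ℝ) ≤ ∑ p ∈ (Finset.univ.filter fun p : Fin (64 * N) × Fin 64 => 1 / (2 * k : ℝ) ≤ ‖E1 p.1 - 1‖),
        ((Finset.univ.filter fun v : Fin (8 * q) → Fin N => 7 * q ≤ (Finset.univ.filter fun i => ‖E1 p.1 ^ (v i : ℕ) - E2 p.2‖ < 1 / 2).card).card : ℝ) := by
      rw [← Nat.cast_sum]
      exact Nat.cast_le.mpr Finset.card_biUnion_le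
    refine h1.trans ?_
    refine (Finset.sum_le_card_nsmul _ _ ((N : ℝ) ^ (8 * q) * (1 / 7) ^ q) ?_).trans ?_
    · intro p hp
      have hp2 := (Finset.mem_filter.mp hp).2
      exact tuple_count N q hN0 (fun x => ‖E1 p.1 ^ (x : ℕ) - E2 p.2‖ < 1 / 2) (near_count N k hk hjk (E1 p.1) (E2 p.2) (hE1 _) (hE2 _) hp2)
    · rw [nsmul_eq_mul]
      refine mul_le_mul_of_nonneg_right ?_ (by positivity)
      have h2 : (Finset.univ.filter fun p : Fin (64 * N) × Fin 64 => 1 / (2 * k : ℝ) ≤ ‖E1 p.1 - 1‖).card ≤ 64 * N * 64 := by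
        refine (Finset.card_filter_le _ _).trans (le_of_eq ?_)
        rw [Finset.card_univ, Fintype.card_prod, Fintype.card_fin, Fintype.card_fin]
      calc ((Finset.univ.filter fun p : Fin (64 * N) × Fin 64 => 1 / (2 * k : ℝ) ≤ ‖E1 p.1 - 1‖).card : ℝ) ≤ ((64 * N * 64 : ℕ) : ℝ) := by exact_mod_cast h2
        _ = 4096 * N := by push_cast; ring
  have hex : ∃ v : Fin (8 * q) → Fin N, v ∉ B1 ∪ B2 := by
    by_contra hcon
    push Not at hcon
    have h1 : (Finset.univ : Finset (Fin (8 * q) → Fin N)).card ≤ B1.card + B2.card :=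
      (Finset.card_le_card (fun v _ => hcon v)).trans (Finset.card_union_le _ _)
    rw [Finset.card_univ, Fintype.card_fun, Fintype.card_fin, Fintype.card_fin] at h1
    have h2 : ((N : ℝ)) ^ (8 * q) ≤ B1.card + B2.card := by exact_mod_cast h1
    have h3 : (B1.card : ℝ) * 2 ≤ (N : ℝ) ^ (8 * q) := by
      have h4 : B1.card * 2 ≤ N ^ (8 * q) := by
        calc B1.card * 2 ≤ (16 * j + 81) ^ l * (2 * M + 1) * N ^ (8 * q - 1) * 2 := Nat.mul_le_mul_right _ hc1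
          _ = (16 * j + 81) ^ l * (4 * M + 2) * N ^ (8 * q - 1) := by ring
          _ ≤ N * N ^ (8 * q - 1) := Nat.mul_le_mul_right _ hjl
          _ = N ^ (8 * q) := by rw [← pow_succ', Nat.sub_add_cancel (by omega)]
      exact_mod_cast h4
    have h5 : 4096 * N * ((N : ℝ) ^ (8 * q) * (1 / 7) ^ q) = (4096 / 16807) * (N : ℝ) ^ (8 * q) := by
      have h6 : (N : ℝ) * (1 / 7) ^ q = 1 / 16807 := by
        rw [hN, hq, pow_add]
        push_cast
        rw [← mul_assoc, ← mul_pow]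
        norm_num
      calc 4096 * (N : ℝ) * ((N : ℝ) ^ (8 * q) * (1 / 7) ^ q) = 4096 * (N : ℝ) ^ (8 * q) * (N * (1 / 7) ^ q) := by ring
        _ = _ := by rw [h6]; ring
    have h7 : (0 : ℝ) < (N : ℝ) ^ (8 * q) := by positivity
    rw [h5] at hc2
    linarith
  obtain ⟨v, hv⟩ := hex
  rw [Finset.mem_union, not_or] at hv
  refine ⟨8 * q, fun i => ((v i : ℕ) : ℤ), by omega, ?_, ?_⟩
  · intro a ha hal
    by_contra hcon
    push Not at hcon
    apply hv.1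
    rw [hB1, Finset.mem_biUnion]
    refine ⟨(a, ∑ i, a i * ((v i : ℕ) : ℤ)), ?_, ?_⟩
    · rw [Finset.mem_product, Finset.mem_filter, Finset.mem_Icc]
      exact ⟨⟨hA' a hal, ha⟩, abs_le.mp hcon⟩
    · rw [Finset.mem_filter]
      exact ⟨Finset.mem_univ _, rfl⟩
  · intro z u hz hu hz1
    obtain ⟨a, ha⟩ := hE1' z hz
    obtain ⟨b, hb⟩ := hE2' u hu
    have hsmall : 7 / ((64 * N : ℕ) : ℝ) ≤ 1 / (2 * k) := by
      rw [div_le_div_iff₀ (by positivity) (by positivity)]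
      have : (128 * k : ℝ) ≤ N := by exact_mod_cast hjk
      push_cast; nlinarith
    have h1 : 1 / (2 * k : ℝ) ≤ ‖E1 a - 1‖ := by
      have h2 : ‖z - 1‖ ≤ ‖z - E1 a‖ + ‖E1 a - 1‖ := norm_sub_le_norm_sub_add_norm_sub _ _ _
      have h3 : 1 / (k : ℝ) = 1 / (2 * k) + 1 / (2 * k) := by field_simp; norm_num
      linarith
    have h4 : ¬ (7 * q ≤ (Finset.univ.filter fun i => ‖E1 a ^ (v i : ℕ) - E2 b‖ < 1 / 2).card) := by
      intro hcon
      apply hv.2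
      rw [hB2, Finset.mem_biUnion]
      refine ⟨(a, b), ?_, ?_⟩
      · rw [Finset.mem_filter]; exact ⟨Finset.mem_univ _, h1⟩
      · rw [Finset.mem_filter]; exact ⟨Finset.mem_univ _, hcon⟩
    push Not at h4
    have h5 : q ≤ (Finset.univ.filter fun i => ¬ ‖E1 a ^ (v i : ℕ) - E2 b‖ < 1 / 2).card := by
      have h6 := Finset.card_filter_add_card_filter_not (s := (Finset.univ : Finset (Fin (8 * q)))) (fun i => ‖E1 a ^ (v i : ℕ) - E2 b‖ < 1 / 2)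
      rw [Finset.card_univ, Fintype.card_fin] at h6
      omega
    have h7 : ∀ i ∈ (Finset.univ.filter fun i => ¬ ‖E1 a ^ (v i : ℕ) - E2 b‖ < 1 / 2), (1 / 4 : ℝ) ≤ ‖z ^ (v i : ℕ) - u‖ := by
      intro i hi
      have hi2 := (Finset.mem_filter.mp hi).2
      push Not at hi2
      have h8 : ‖z ^ (v i : ℕ) - E1 a ^ (v i : ℕ)‖ ≤ 7 / 64 := by
        refine (pow_sub_le z (E1 a) hz (hE1 a) _).trans ?_
        have h9 : ((v i : ℕ) : ℝ) ≤ N := by exact_mod_cast (v i).2.le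
        calc ((v i : ℕ) : ℝ) * ‖z - E1 a‖ ≤ N * (7 / ((64 * N : ℕ) : ℝ)) := mul_le_mul h9 ha (norm_nonneg _) hNR.le
          _ = 7 / 64 := by push_cast; field_simp
      have h10 : ‖E1 a ^ (v i : ℕ) - E2 b‖ ≤ ‖z ^ (v i : ℕ) - E1 a ^ (v i : ℕ)‖ + ‖z ^ (v i : ℕ) - u‖ + ‖u - E2 b‖ := by
        have : E1 a ^ (v i : ℕ) - E2 b = -(z ^ (v i : ℕ) - E1 a ^ (v i : ℕ)) + (z ^ (v i : ℕ) - u) + (u - E2 b) := by ring
        rw [this]
        refine (norm_add_le _ _).trans (add_le_add ((norm_add_le _ _).trans (le_of_eq ?_)) le_rfl)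
        rw [norm_neg]
      have hb' : ‖u - E2 b‖ ≤ 7 / 64 := by simpa using hb
      linarith
    have h11 : (Finset.univ.filter fun i => ¬ ‖E1 a ^ (v i : ℕ) - E2 b‖ < 1 / 2).card • (1 / 4 : ℝ) ≤ ∑ i ∈ (Finset.univ.filter fun i => ¬ ‖E1 a ^ (v i : ℕ) - E2 b‖ < 1 / 2), ‖z ^ (v i : ℕ) - u‖ :=
      Finset.card_nsmul_le_sum _ _ _ h7
    have h12 : ∑ i ∈ (Finset.univ.filter fun i => ¬ ‖E1 a ^ (v i : ℕ) - E2 b‖ < 1 / 2), ‖z ^ (v i : ℕ) - u‖ ≤ ∑ i, ‖z ^ (v i : ℕ) - u‖ :=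
      Finset.sum_le_sum_of_subset_of_nonneg (Finset.filter_subset _ _) fun i _ _ => norm_nonneg _
    have h13 : (q : ℝ) ≤ ((Finset.univ.filter fun i => ¬ ‖E1 a ^ (v i : ℕ) - E2 b‖ < 1 / 2).card : ℝ) := by exact_mod_cast h5
    rw [nsmul_eq_mul] at h11
    simp only [zpow_natCast]
    push_cast
    linarith

end Pool.Agent.X84.Ex
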