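import Pool.Agent.X84.Ex.Norm

namespace Pool.Agent.X84.Ex

open Finset

variable (S : Sys)

/-- Digit sequences. -/
abbrev K := ∀ n, Fin (S.s n)

theorem sm : Summable (fun n : ℕ => (1 / 8 : ℝ) ^ (n + 1)) := by
  simp_rw [pow_succ]
  exact (summable_geometric_of_lt_one (by norm_num) (by norm_num)).mul_right _

theorem norm_digit (n : ℕ) (i : Fin (S.s n)) : ‖jj S (S.d n i)‖ ≤ (1 / 8 : ℝ) ^ (n + 1) := by
  rw [norm_jj]; exact nu_d S n i

theorem sum_digit (c : K S) : Summable (fun n => jj S (S.d n (c n))) :=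
  Summable.of_norm_bounded sm (fun n => norm_digit S n (c n))

/-- The embedding of digit sequences into the completed group. -/
noncomputable def emb (c : K S) : G S := ∑' n, jj S (S.d n (c n))

theorem emb_cont : Continuous (emb S) := by
  unfold emb
  refine continuous_tsum (fun n => ?_) sm (fun n c => norm_digit S n (c n))
  exact (continuous_of_discreteTopology (f := fun i : Fin (S.s n) => jj S (S.d n i))).comp (continuous_apply n)

theorem emb_eq (c : K S) (N : ℕ) : emb S c = jj S (D S c N) + ∑' n, jj S (S.d (n + N) (c (n + N))) := by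
  unfold emb D
  rw [map_sum]
  exact ((sum_digit S c).sum_add_tsum_nat_add N).symm

theorem tail_le (c : K S) (N : ℕ) : ‖∑' n, jj S (S.d (n + (N + 1)) (c (n + (N + 1))))‖ ≤ (1 / 8 : ℝ) ^ (N + 1) / 7 := by
  have h1 : HasSum (fun n : ℕ => (1 / 8 : ℝ) ^ (N + 2) * (1 / 8 : ℝ) ^ n) ((1 / 8 : ℝ) ^ (N + 2) * (1 - 1 / 8)⁻¹) :=
    (hasSum_geometric_of_lt_one (by norm_num) (by norm_num)).mul_left _
  refine (tsum_of_norm_bounded h1 fun n => ?_).trans (le_of_eq ?_)
  · refine (norm_digit S _ _).trans (le_of_eq ?_)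
    rw [← pow_add]; congr 1; ring
  · rw [pow_succ]; ring

/-- The key rigidity: translates of the image meet only along finite changes of digits. -/
theorem rigid (c c' : K S) (k : ℤ) (h : emb S c + jj S k = emb S c') (N : ℕ) (hN : k.natAbs ≤ N) :
    k + D S c (N + 1) - D S c' (N + 1) = 0 := by
  refine nu_lower S _ N ?_ ?_
  · rw [← norm_jj, map_sub, map_add]
    rw [emb_eq S c (N + 1), emb_eq S c' (N + 1)] at h
    have h1 : jj S k + jj S (D S c (N + 1)) - jj S (D S c' (N + 1)) =
        ∑' n, jj S (S.d (n + (N + 1)) (c' (n + (N + 1)))) - ∑' n, jj S (S.d (n + (N + 1)) (c (n + (N + 1)))) := by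
      rw [eq_sub_iff_add_eq, sub_add_eq_add_sub, sub_eq_iff_eq_add']
      rw [← h]; abel
    rw [h1]
    have h2 := tail_le S c N
    have h3 := tail_le S c' N
    have h4 : (0 : ℝ) < (1 / 8 : ℝ) ^ (N + 1) := by positivity
    refine (norm_sub_le _ _).trans_lt ?_
    linarith
  · have h1 := abs_D_le S c (N + 1)
    have h2 := abs_D_le S c' (N + 1)
    have h3 := le_rad S (N + 1)
    have h4 : |k + D S c (N + 1) - D S c' (N + 1)| ≤ |k| + |D S c (N + 1)| + |D S c' (N + 1)| :=
      (abs_sub _ _).trans (add_le_add (abs_add_le _ _) le_rfl)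
    have h5 : |k| ≤ (N : ℤ) := by rw [Int.abs_eq_natAbs]; exact_mod_cast hN
    push_cast at h3
    linarith

theorem rigid_tail (c c' : K S) (k : ℤ) (h : emb S c + jj S k = emb S c') (n : ℕ) (hn : k.natAbs + 1 ≤ n) : c n = c' n := by
  have h1 := rigid S c c' k h n (by omega)
  obtain ⟨m, rfl⟩ : ∃ m, n = m + 1 := ⟨n - 1, by omega⟩
  have h2 := rigid S c c' k h m (by omega)
  apply d_inj S
  unfold D at h1 h2
  rw [Finset.sum_range_succ _ (m + 1), Finset.sum_range_succ _ (m + 1)] at h1
  linarith

theorem rigid_eq (c c' : K S) (k : ℤ) (h : emb S c + jj S k = emb S c') : k = D S c' (k.natAbs + 1) - D S c (k.natAbs + 1) := by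
  have := rigid S c c' k h k.natAbs le_rfl
  linarith

theorem emb_change (c c' : K S) (N : ℕ) (h : ∀ n, N ≤ n → c n = c' n) : emb S c' = emb S c + jj S (D S c' N - D S c N) := by
  rw [emb_eq S c N, emb_eq S c' N, map_sub]
  have h1 : (fun n => jj S (S.d (n + N) (c' (n + N)))) = fun n => jj S (S.d (n + N) (c (n + N))) := by
    funext n; rw [h (n + N) (by omega)]
  rw [h1]; abel

/-- If a translate of the image by a small nonzero integer meets the image then digits of low order differ. -/
theorem sep (c c' : K S) (k : ℤ) (h : emb S c + jj S k = emb S c') (n0 : ℕ) (hn0 : ∀ n, n < n0 → c n = c' n)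
    (hk : |k| ≤ rad S.s S.d n0) : k = 0 ∧ c = c' := by
  have h1 := rigid_eq S c c' k h
  rcases gap S c c' n0 hn0 (k.natAbs + 1) with h2 | h2
  · have h3 : D S c (k.natAbs + 1) = D S c' (k.natAbs + 1) := by
      unfold D
      exact Finset.sum_congr rfl fun n hn => by rw [h2 n (Finset.mem_range.mp hn)]
    refine ⟨by rw [h1, h3, sub_self], ?_⟩
    funext n
    by_cases hn : n < k.natAbs + 1
    · exact h2 n hn
    · exact rigid_tail S c c' k h n (by omega)
  · rw [← h1] at h2
    exact absurd hk (not_le.mpr h2)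

theorem rad_nonneg (n : ℕ) : 0 ≤ rad S.s S.d n := by
  unfold rad
  have := prod_pos S n
  have := Finset.sum_nonneg (s := range n) fun l _ => mx_nonneg S l
  positivity

theorem emb_inj : Function.Injective (emb S) := by
  intro c c' h
  exact (sep S c c' 0 (by rw [map_zero, add_zero, h]) 0 (fun n hn => by omega) (by rw [abs_zero]; exact rad_nonneg S 0)).2

theorem emb_closed : Topology.IsClosedEmbedding (emb S) :=
  (emb_cont S).isClosedEmbedding (emb_inj S)

end Pool.Agent.X84.Ex
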