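import Pool.Agent.X84.Ex.Haar

namespace Pool.Agent.X84.Ex

open MeasureTheory Set Filter Topology

variable (S : Sys)

instance : (𝓝[≠] (0 : K S)).NeBot := by
  rw [← mem_closure_iff_nhdsWithin_neBot, mem_closure_iff_nhds]
  intro U hU
  obtain ⟨N0, hN0⟩ := nhds_zero S hU
  have h2 := S.hs N0
  have hne : (⟨1, by omega⟩ : Fin (S.s N0)) ≠ 0 := by
    intro h; have := congrArg Fin.val h; simp at this
  refine ⟨Pi.single N0 ⟨1, by omega⟩, hN0 _ fun m hm => ?_, ?_⟩
  · have hmn : m ≠ N0 := by omega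
    simp [hmn]
  · intro h
    apply hne
    have := congrFun (Set.mem_singleton_iff.mp h) N0
    rw [Pi.single_eq_same] at this
    exact this

theorem eta_point (c : K S) : eta S {c} = 0 := by
  have : NullSingletonClass (eta S) := Measure.IsAddHaarMeasure.nullSingletonClass (eta S)
  exact measure_singleton c

theorem mm_point (x : G S) : mm S {x} = 0 := by
  rw [mm_apply S (measurableSet_singleton x)]
  have : NullSingletonClass (eta S) := Measure.IsAddHaarMeasure.nullSingletonClass (eta S)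
  exact (Set.subsingleton_singleton.preimage (emb_inj S)).measure_zero _

theorem mu_eq {B : Set (G S)} (hB : MeasurableSet B) (hBA : B ⊆ AA S) : mu S B = eta S (emb S ⁻¹' B) := by
  unfold mu
  rw [spread_eq (jj S) (AA_meas S) (PI S) 0 hB (by rw [neg_zero, tau_zero]; exact hBA), tau_zero, mm_apply S hB]

theorem mp (k : ℤ) : MeasurePreserving (tau (jj S) k) (mu S) (mu S) := spread_mp (jj S) (AA_meas S) (PI S) k

theorem ae_shift {P : G S → Prop} (h : ∀ᵐ x ∂(mu S), P x) : ∀ᵐ x ∂(mu S), ∀ k : ℤ, P (tau (jj S) k x) :=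
  ae_all_iff.mpr fun k => (mp S k).quasiMeasurePreserving.ae h

theorem ae_down {P : G S → Prop} (h : ∀ᵐ x ∂(mu S), P x) : ∀ᵐ c ∂(eta S), P (emb S c) := by
  obtain ⟨N, hN, hNm, hN0⟩ := exists_measurable_superset_of_null (ae_iff.mp h)
  rw [ae_iff]
  refine measure_mono_null (t := emb S ⁻¹' (N ∩ AA S)) (fun c hc => ⟨hN hc, c, rfl⟩) ?_
  rw [← mu_eq S (hNm.inter (AA_meas S)) Set.inter_subset_right]
  exact measure_mono_null Set.inter_subset_left hN0

theorem ae_up {f : G S → ℂ} (hf : Measurable f) (c0 : ℂ) (h : ∀ᵐ c ∂(eta S), f (emb S c) = c0) :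
    ∀ᵐ x ∂(mu S), x ∈ AA S → f x = c0 := by
  have hm : MeasurableSet ({x | f x ≠ c0} ∩ AA S) := ((measurableSet_eq_fun hf measurable_const).compl).inter (AA_meas S)
  rw [ae_iff]
  have h1 : {x | ¬ (x ∈ AA S → f x = c0)} = {x | f x ≠ c0} ∩ AA S := by
    ext x; simp only [Set.mem_inter_iff, Set.mem_ofPred_eq]; tauto
  rw [h1, mu_eq S hm Set.inter_subset_right]
  exact measure_mono_null (fun c hc => hc.1) (ae_iff.mp h)

theorem ae_U : ∀ᵐ x ∂(mu S), ∃ k : ℤ, tau (jj S) k x ∈ AA S := by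
  rw [ae_iff]
  refine measure_mono_null (fun x hx => ?_) (spread_compl (jj S) (m := mm S) (AA_meas S))
  intro hxU
  exact hx ((mem_U (jj S) x).mp hxU)

theorem D_single (c : K S) (n : ℕ) (t : Fin (S.s n)) :
    D S (c + Pi.single n t) (n + 1) - D S c (n + 1) = S.d n (c n + t) - S.d n (c n) := by
  unfold D
  rw [Finset.sum_range_succ, Finset.sum_range_succ]
  have h1 : ∑ m ∈ Finset.range n, S.d m ((c + Pi.single n t : K S) m) = ∑ m ∈ Finset.range n, S.d m (c m) := by
    refine Finset.sum_congr rfl fun m hm => ?_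
    have hmn : m ≠ n := (Finset.mem_range.mp hm).ne
    simp [hmn]
  rw [h1]
  simp

theorem emb_single (c : K S) (n : ℕ) (t : Fin (S.s n)) :
    emb S (c + Pi.single n t) = emb S c + jj S (S.d n (c n + t) - S.d n (c n)) := by
  rw [← D_single]
  refine emb_change S c _ (n + 1) fun m hm => ?_
  have hmn : m ≠ n := by omega
  simp [hmn]

/-- The spreading argument kills eigenfunctions with eigenvalue other than one. -/
theorem eig_zero (f0 : K S → ℂ) (hi : Integrable f0 (eta S)) (lam : ℂ) (hl : ‖lam‖ = 1) (hl1 : lam ≠ 1)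
    (h : ∀ᵐ c ∂(eta S), ∀ (n : ℕ) (t : Fin (S.s n)), f0 (c + Pi.single n t) = lam ^ (S.d n (c n + t) - S.d n (c n)) * f0 c) :
    ∀ᵐ c ∂(eta S), f0 c = 0 := by
  have hpos : 0 < ‖lam - 1‖ := norm_pos_iff.mpr (sub_ne_zero.mpr hl1)
  have hlam0 : lam ≠ 0 := by intro h0; rw [h0, norm_zero] at hl; exact zero_ne_one hl
  obtain ⟨n1, hn1⟩ := exists_nat_gt (1 / ‖lam - 1‖)
  have key : ∀ e : ℝ, 0 < e → ∫ c, ‖f0 c‖ ∂(eta S) ≤ 32 * e := by
    intro e he
    obtain ⟨N0, hN0⟩ := lc S hi he
    set n := max N0 n1 with hn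
    have hdet : ∀ u : ℂ, ‖u‖ = 1 → (S.s n : ℝ) / 32 ≤ ∑ i, ‖lam ^ (S.d n i) - u‖ := by
      intro u hu
      refine S.det n lam u hl hu ?_
      have h1 : (n1 : ℝ) ≤ n := by exact_mod_cast le_max_right N0 n1
      rw [div_le_iff₀ (by positivity)]
      rw [div_lt_iff₀ hpos] at hn1
      nlinarith
    have hsn : (0 : ℝ) < S.s n := by have := S.hs n; exact_mod_cast (by omega : 0 < S.s n)
    have h2 : ∑ t : Fin (S.s n), ∫ c, ‖f0 (c + Pi.single n t) - f0 c‖ ∂(eta S) ≤ S.s n * e := by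
      refine (Finset.sum_le_card_nsmul _ _ e fun t _ => hN0 n (le_max_left _ _) t).trans (le_of_eq ?_)
      rw [Finset.card_univ, Fintype.card_fin, nsmul_eq_mul]
    have hint : ∀ t : Fin (S.s n), Integrable (fun c => ‖f0 (c + Pi.single n t) - f0 c‖) (eta S) := fun t =>
      ((hi.comp_add_right (Pi.single n t)).sub hi).norm
    rw [← integral_finsetSum _ (fun t _ => hint t)] at h2
    have h3 : ∫ c, ((S.s n : ℝ) / 32) * ‖f0 c‖ ∂(eta S) ≤ ∫ c, ∑ t : Fin (S.s n), ‖f0 (c + Pi.single n t) - f0 c‖ ∂(eta S) := by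
      refine integral_mono_ae (hi.norm.const_mul _) (integrable_finsetSum _ fun t _ => hint t) ?_
      filter_upwards [h] with c hc
      have h4 : ∀ t : Fin (S.s n), ‖f0 (c + Pi.single n t) - f0 c‖ = ‖lam ^ (S.d n (c n + t)) - lam ^ (S.d n (c n))‖ * ‖f0 c‖ := by
        intro t
        rw [hc n t, zpow_sub₀ hlam0]
        have h5 : lam ^ (S.d n (c n + t)) / lam ^ (S.d n (c n)) * f0 c - f0 c = (lam ^ (S.d n (c n + t)) - lam ^ (S.d n (c n))) / lam ^ (S.d n (c n)) * f0 c := by
          have : lam ^ (S.d n (c n)) ≠ 0 := zpow_ne_zero _ hlam0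
          field_simp
        rw [h5, norm_mul, norm_div, norm_zpow lam (S.d n (c n)), hl, one_zpow, div_one]
      rw [Finset.sum_congr rfl fun t _ => h4 t, ← Finset.sum_mul]
      refine mul_le_mul_of_nonneg_right ?_ (norm_nonneg _)
      have h6 : ∑ t : Fin (S.s n), ‖lam ^ (S.d n (c n + t)) - lam ^ (S.d n (c n))‖ = ∑ i : Fin (S.s n), ‖lam ^ (S.d n i) - lam ^ (S.d n (c n))‖ :=
        Equiv.sum_comp (Equiv.addLeft (c n)) (fun i => ‖lam ^ (S.d n i) - lam ^ (S.d n (c n))‖)
      rw [h6]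
      exact hdet _ (by rw [norm_zpow, hl, one_zpow])
    rw [integral_const_mul] at h3
    have h7 := h3.trans h2
    have h8 : (S.s n : ℝ) * (∫ c, ‖f0 c‖ ∂(eta S)) ≤ S.s n * (32 * e) := by nlinarith
    exact le_of_mul_le_mul_left h8 hsn
  have h0 : ∫ c, ‖f0 c‖ ∂(eta S) = 0 := by
    refine le_antisymm (le_of_forall_pos_le_add fun e he => ?_) (integral_nonneg fun _ => norm_nonneg _)
    have := key (e / 32) (by positivity)
    linarith
  rw [integral_eq_zero_iff_of_nonneg (fun _ => norm_nonneg _) hi.norm] at h0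
  filter_upwards [h0] with c hc
  exact norm_eq_zero.mp hc

/-- Functions invariant under finite changes of digits are constant. -/
theorem inv_const (f0 : K S → ℂ) (hm : Measurable f0)
    (h : ∀ᵐ c ∂(eta S), ∀ (N : ℕ) (g : Ch S N), f0 (c + g.1) = f0 c) :
    ∃ c0 : ℂ, ∀ᵐ c ∂(eta S), f0 c = c0 := by
  have : ∃ c0 : ℂ, f0 =ᵐ[eta S] Function.const _ c0 := by
    refine exists_eventuallyEq_const_of_forall_separating MeasurableSet fun U hU => ?_
    refine eventuallyConst_set.mp (?_ : EventuallyConst (f0 ⁻¹' U) (ae (eta S)))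
    refine aeconst_of_dense_setOfPred_preimage_vadd_ae (M := K S) (hm hU).nullMeasurableSet ?_
    intro e
    rw [mem_closure_iff_nhds]
    intro V hV
    have hV' : (fun x : K S => e + x) ⁻¹' V ∈ 𝓝 (0 : K S) := by
      refine (continuous_const.add continuous_id).continuousAt.preimage_mem_nhds ?_
      simpa using hV
    obtain ⟨N0, hN0⟩ := nhds_zero S hV'
    let g : K S := fun n => if n < N0 then e n else 0
    refine ⟨g, ?_, ?_⟩
    · have h1 := hN0 (g - e) (fun m hm => by simp [g, hm])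
      simpa using h1
    · change (fun x : K S => g +ᵥ x) ⁻¹' (f0 ⁻¹' U) =ᵐ[eta S] f0 ⁻¹' U
      filter_upwards [h] with c hc
      have h2 := hc N0 ⟨g, fun n hn => by simp [g, not_lt.mpr hn]⟩
      have h3 : f0 (g +ᵥ c) = f0 c := by
        rw [vadd_eq_add, add_comm]; exact h2
      apply propext
      change f0 (g +ᵥ c) ∈ U ↔ f0 c ∈ U
      rw [h3]
  obtain ⟨c0, hc0⟩ := this
  exact ⟨c0, hc0⟩

/-- There are no nonconstant bounded eigenfunctions. -/
theorem eig (f : G S → ℂ) (lam : ℂ) (C : ℝ) (hf : Measurable f) (hC : ∀ᵐ x ∂(mu S), ‖f x‖ ≤ C)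
    (he : ∀ᵐ x ∂(mu S), f (tau (jj S) 1 x) = lam * f x) : ∃ c : ℂ, ∀ᵐ x ∂(mu S), f x = c := by
  have htt : ∀ (a b : ℤ) (x : G S), tau (jj S) a (tau (jj S) b x) = tau (jj S) (a + b) x := by
    intro a b x; simp only [tau, map_add]; abel
  have ht0 : ∀ x : G S, tau (jj S) 0 x = x := by intro x; simp [tau]
  have hgood : ∀ᵐ x ∂(mu S), (∀ k : ℤ, f (tau (jj S) (k + 1) x) = lam * f (tau (jj S) k x)) ∧ ∀ k : ℤ, ‖f (tau (jj S) k x)‖ ≤ C := by
    filter_upwards [ae_shift S hC, ae_shift S he] with x h1 h2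
    refine ⟨fun k => ?_, h1⟩
    have := h2 k
    rw [htt] at this
    rw [add_comm k 1]; exact this
  have hpow : ∀ x : G S, (∀ k : ℤ, f (tau (jj S) (k + 1) x) = lam * f (tau (jj S) k x)) →
      ∀ (n : ℕ) (k : ℤ), f (tau (jj S) (k + n) x) = lam ^ n * f (tau (jj S) k x) := by
    intro x hx n
    induction n with
    | zero => intro k; simp
    | succ n ih =>
      intro k
      have h1 : k + ((n + 1 : ℕ) : ℤ) = (k + n) + 1 := by push_cast; ring
      rw [h1, hx, ih, pow_succ]; ring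
  by_cases hl : ‖lam‖ = 1
  · have hlam0 : lam ≠ 0 := by intro h0; rw [h0, norm_zero] at hl; exact zero_ne_one hl
    have hz : ∀ᵐ x ∂(mu S), ∀ k : ℤ, f (tau (jj S) k x) = lam ^ k * f x := by
      filter_upwards [hgood] with x hx k
      rcases Int.eq_nat_or_neg k with ⟨n, rfl | rfl⟩
      · have := hpow x hx.1 n 0
        rw [zero_add, ht0] at this
        rw [this, zpow_natCast]
      · have := hpow x hx.1 n (-n)
        rw [neg_add_cancel, ht0] at this
        rw [this, zpow_neg, zpow_natCast]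
        field_simp
    have hz0 := ae_down S hz
    have hi : Integrable (fun c => f (emb S c)) (eta S) :=
      Integrable.of_bound (hf.comp (emb_cont S).measurable).aestronglyMeasurable C (ae_down S hC)
    have hfin : ∃ c0 : ℂ, (∀ᵐ c ∂(eta S), f (emb S c) = c0) ∧ (lam = 1 ∨ c0 = 0) := by
      by_cases hl1 : lam = 1
      · obtain ⟨c0, hc0⟩ := inv_const S (fun c => f (emb S c)) (hf.comp (emb_cont S).measurable) (by
          filter_upwards [hz0] with c hc N g
          have h1 := emb_change S c (c + g.1) N (fun n hn => by rw [Pi.add_apply, g.2 n hn, add_zero])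
          change f (emb S (c + g.1)) = f (emb S c)
          rw [h1]
          have h2 := hc (D S (c + g.1) N - D S c N)
          rw [hl1, one_zpow, one_mul] at h2
          exact h2)
        exact ⟨c0, hc0, Or.inl hl1⟩
      · refine ⟨0, eig_zero S (fun c => f (emb S c)) hi lam hl hl1 ?_, Or.inr rfl⟩
        filter_upwards [hz0] with c hc n t
        rw [emb_single]
        exact hc _
    obtain ⟨c0, hc0, hor⟩ := hfin
    refine ⟨c0, ?_⟩
    filter_upwards [hz, ae_shift S (ae_up S hf c0 hc0), ae_U S] with x h1 h2 h3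
    obtain ⟨k, hk⟩ := h3
    have h4 := h2 k hk
    rw [h1 k] at h4
    rcases hor with h5 | h5
    · rw [h5, one_zpow, one_mul] at h4; exact h4
    · rw [h5] at h4 ⊢
      exact (mul_eq_zero.mp h4).resolve_left (zpow_ne_zero _ hlam0)
  · refine ⟨0, ?_⟩
    filter_upwards [hgood] with x hx
    have hCn : 0 ≤ C := (norm_nonneg _).trans (hx.2 0)
    rcases lt_or_gt_of_ne hl with h1 | h1
    · have h2 : ∀ n : ℕ, ‖f x‖ ≤ ‖lam‖ ^ n * C := by
        intro n
        have := hpow x hx.1 n (-n)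
        rw [neg_add_cancel, ht0] at this
        rw [this, norm_mul, norm_pow]
        exact mul_le_mul_of_nonneg_left (hx.2 _) (by positivity)
      have h3 : Tendsto (fun n : ℕ => ‖lam‖ ^ n * C) atTop (𝓝 (0 * C)) :=
        (tendsto_pow_atTop_nhds_zero_of_lt_one (norm_nonneg _) h1).mul_const C
      rw [zero_mul] at h3
      exact norm_le_zero_iff.mp (ge_of_tendsto' h3 h2)
    · have hpos : 0 < ‖lam‖ := by linarith
      have h2 : ∀ n : ℕ, ‖f x‖ ≤ (‖lam‖⁻¹) ^ n * C := by
        intro n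
        have := hpow x hx.1 n 0
        rw [zero_add, ht0] at this
        have h3 := hx.2 n
        rw [this, norm_mul, norm_pow] at h3
        rw [inv_pow, ← div_eq_inv_mul, le_div_iff₀ (by positivity)]
        linarith
      have h3 : Tendsto (fun n : ℕ => (‖lam‖⁻¹) ^ n * C) atTop (𝓝 (0 * C)) :=
        (tendsto_pow_atTop_nhds_zero_of_lt_one (by positivity) (inv_lt_one_of_one_lt₀ h1)).mul_const C
      rw [zero_mul] at h3
      exact norm_le_zero_iff.mp (ge_of_tendsto' h3 h2)

end Pool.Agent.X84.Ex
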