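import Pool.Agent.X84.Ex.Erg

namespace Pool.Agent.X84.Ex

open MeasureTheory Set Filter Topology

variable (S : Sys)

theorem sep_G : TopologicalSpace.SeparableSpace (G S) :=
  (denseRange_jj S).separableSpace (continuous_of_discreteTopology)

theorem std_G : StandardBorelSpace (G S) := by
  have := sep_G S
  have : SecondCountableTopology (G S) := UniformSpace.secondCountable_of_separable _
  infer_instance

theorem ball_pos (x : G S) (e : ℝ) (he : 0 < e) : 0 < mu S {z | dist x z < e} := by
  have hV : IsOpen (emb S ⁻¹' (Metric.ball (emb S 0) (e / 2))) := Metric.isOpen_ball.preimage (emb_cont S)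
  have h0 : 0 < eta S (emb S ⁻¹' (Metric.ball (emb S 0) (e / 2))) :=
    hV.measure_pos _ ⟨0, Metric.mem_ball_self (by positivity)⟩
  have h1 : 0 < mu S (Metric.ball (emb S 0) (e / 2)) := by
    refine lt_of_lt_of_le ?_ (measure_mono (Set.inter_subset_left (t := AA S)))
    rw [mu_eq S (Metric.isOpen_ball.measurableSet.inter (AA_meas S)) Set.inter_subset_right]
    refine lt_of_lt_of_le h0 (measure_mono fun c hc => ⟨hc, c, rfl⟩)
  obtain ⟨k, hk⟩ := (denseRange_jj S).exists_dist_lt (x - emb S 0) (show 0 < e / 2 by positivity)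
  have h2 : mu S (tau (jj S) (-k) ⁻¹' Metric.ball (emb S 0) (e / 2)) = mu S (Metric.ball (emb S 0) (e / 2)) :=
    (mp S (-k)).measure_preimage Metric.isOpen_ball.measurableSet.nullMeasurableSet
  rw [← h2] at h1
  refine lt_of_lt_of_le h1 (measure_mono fun z hz => ?_)
  have hz' : dist (z + jj S (-k)) (emb S 0) < e / 2 := hz
  have h3 : dist x z ≤ dist (x - emb S 0) (jj S k) + dist (z + jj S (-k)) (emb S 0) := by
    rw [dist_eq_norm, dist_eq_norm, dist_eq_norm, map_neg]
    have h4 : x - z = (x - emb S 0 - jj S k) - (z + -jj S k - emb S 0) := by abel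
    rw [h4]
    exact norm_sub_le _ _
  change dist x z < e
  linarith

end Pool.Agent.X84.Ex
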