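import Mathlib

namespace Pool.Agent.X84.Ex

open MeasureTheory Set

section

variable {H : Type*} [AddCommGroup H] [MeasurableSpace H] [MeasurableAdd H] (j : ℤ →+ H)

/-- Translation by an integer. -/
def tau (k : ℤ) : H → H := fun x => x + j k

theorem tau_meas (k : ℤ) : Measurable (tau j k) := measurable_add_const _

omit [MeasurableSpace H] [MeasurableAdd H] in
theorem tau_tau (a b : ℤ) (B : Set H) : tau j a ⁻¹' (tau j b ⁻¹' B) = tau j (a + b) ⁻¹' B := by
  ext x; simp [tau, add_assoc]

omit [MeasurableSpace H] [MeasurableAdd H] in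
theorem tau_zero (B : Set H) : tau j 0 ⁻¹' B = B := by
  ext x; simp [tau]

/-- The enumeration of the integers. -/
def en (n : ℕ) : ℤ := Equiv.intEquivNat.symm n

theorem en_surj (k : ℤ) : ∃ n, en n = k := ⟨Equiv.intEquivNat k, by simp [en]⟩

/-- The translates of `A`. -/
def TA (A : Set H) (n : ℕ) : Set H := tau j (-(en n)) ⁻¹' A

/-- The disjoint pieces. -/
def DA (A : Set H) (n : ℕ) : Set H := disjointed (TA j A) n

/-- The measure spread along the orbits. -/
noncomputable def spread (m : Measure H) (A : Set H) : Measure H :=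
  Measure.sum fun n => (m.map (tau j (en n))).restrict (DA j A n)

variable {m : Measure H} {A : Set H} (hA : MeasurableSet A)

include hA

theorem TA_meas (n : ℕ) : MeasurableSet (TA j A n) := tau_meas j _ hA

theorem DA_meas (n : ℕ) : MeasurableSet (DA j A n) := MeasurableSet.disjointed (TA_meas j hA) n

theorem spread_apply {B : Set H} (hB : MeasurableSet B) :
    spread j m A B = ∑' n, m (tau j (en n) ⁻¹' (B ∩ DA j A n)) := by
  unfold spread
  rw [Measure.sum_apply _ hB]
  congr 1
  funext n
  rw [Measure.restrict_apply hB, Measure.map_apply (tau_meas j _) (hB.inter (DA_meas j hA n))]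

omit [MeasurableSpace H] [MeasurableAdd H] hA in
theorem iUnion_DA : ⋃ n, DA j A n = ⋃ n, TA j A n := iUnion_disjointed

omit [MeasurableSpace H] [MeasurableAdd H] hA in
theorem mem_U (x : H) : x ∈ (⋃ n, TA j A n) ↔ ∃ k : ℤ, x + j k ∈ A := by
  rw [Set.mem_iUnion]
  constructor
  · rintro ⟨n, hn⟩; exact ⟨-(en n), hn⟩
  · rintro ⟨k, hk⟩
    obtain ⟨n, hn⟩ := en_surj (-k)
    refine ⟨n, ?_⟩
    change x + j (-(en n)) ∈ A
    rw [hn, neg_neg]; exact hk

theorem spread_compl : spread j m A (⋃ n, TA j A n)ᶜ = 0 := by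
  rw [spread_apply j hA (MeasurableSet.iUnion (TA_meas j hA)).compl]
  rw [ENNReal.tsum_eq_zero]
  intro n
  have : (⋃ n, TA j A n)ᶜ ∩ DA j A n = ∅ := by
    rw [← iUnion_DA, Set.eq_empty_iff_forall_notMem]
    rintro x ⟨h1, h2⟩
    exact h1 (Set.mem_iUnion.mpr ⟨n, h2⟩)
  rw [this, Set.preimage_empty, measure_empty]

variable (hPI : ∀ (k : ℤ) (B : Set H), MeasurableSet B → B ⊆ A → tau j k ⁻¹' B ⊆ A → m (tau j k ⁻¹' B) = m B)

include hPI

theorem spread_eq (k : ℤ) {B : Set H} (hB : MeasurableSet B) (hBA : B ⊆ tau j (-k) ⁻¹' A) :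
    spread j m A B = m (tau j k ⁻¹' B) := by
  rw [spread_apply j hA hB]
  have h1 : ∀ n, m (tau j (en n) ⁻¹' (B ∩ DA j A n)) = m (tau j k ⁻¹' (B ∩ DA j A n)) := by
    intro n
    have h2 : tau j (en n) ⁻¹' (B ∩ DA j A n) = tau j (en n - k) ⁻¹' (tau j k ⁻¹' (B ∩ DA j A n)) := by
      rw [tau_tau, sub_add_cancel]
    rw [h2]
    refine hPI _ _ (tau_meas j _ (hB.inter (DA_meas j hA n))) ?_ ?_
    · rintro x ⟨hx, _⟩
      have := hBA hx
      simpa [tau] using this
    · rw [← h2]
      rintro x ⟨_, hx⟩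
      have := disjointed_subset (TA j A) n hx
      simpa [tau, TA] using this
  rw [tsum_congr h1, ← measure_iUnion]
  · rw [← Set.preimage_iUnion, ← Set.inter_iUnion, iUnion_DA]
    congr 2
    refine Set.inter_eq_left.mpr fun x hx => ?_
    rw [mem_U]
    exact ⟨-k, hBA hx⟩
  · intro a b hab
    refine Disjoint.preimage _ ?_
    exact (disjoint_disjointed (TA j A) hab).mono Set.inter_subset_right Set.inter_subset_right
  · intro n
    exact tau_meas j _ (hB.inter (DA_meas j hA n))

theorem spread_inv (k : ℤ) {B : Set H} (hB : MeasurableSet B) :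
    spread j m A (tau j k ⁻¹' B) = spread j m A B := by
  set U := ⋃ n, TA j A n with hU
  have hUm : MeasurableSet U := MeasurableSet.iUnion (TA_meas j hA)
  have hc : spread j m A Uᶜ = 0 := spread_compl j hA
  have hinter : ∀ C : Set H, spread j m A C = spread j m A (C ∩ U) := by
    intro C
    rw [← measure_inter_add_sdiff C hUm]
    have : spread j m A (C \ U) = 0 := measure_mono_null (fun x hx => hx.2) hc
    rw [this, add_zero]
  have hUinv : tau j (-k) ⁻¹' U = U := by
    ext x
    rw [Set.mem_preimage, hU, mem_U, mem_U]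
    constructor
    · rintro ⟨l, hl⟩
      refine ⟨-k + l, ?_⟩
      rw [map_add, ← add_assoc]; exact hl
    · rintro ⟨l, hl⟩
      refine ⟨l + k, ?_⟩
      simp only [tau, map_add, map_neg]
      have : x + -j k + (j l + j k) = x + j l := by abel
      rw [this]; exact hl
  have h1 : tau j k ⁻¹' B ∩ U = ⋃ n, (tau j k ⁻¹' B ∩ DA j A n) := by
    rw [← Set.inter_iUnion, iUnion_DA]
  have h2 : B ∩ U = ⋃ n, tau j (-k) ⁻¹' (tau j k ⁻¹' B ∩ DA j A n) := by
    rw [← Set.preimage_iUnion, ← Set.inter_iUnion, iUnion_DA, Set.preimage_inter, tau_tau, neg_add_cancel, tau_zero, ← hU, hUinv]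
  have hdisj : Pairwise (Function.onFun Disjoint fun n => tau j k ⁻¹' B ∩ DA j A n) := by
    intro a b hab
    exact (disjoint_disjointed (TA j A) hab).mono Set.inter_subset_right Set.inter_subset_right
  have hms : ∀ n, MeasurableSet (tau j k ⁻¹' B ∩ DA j A n) := fun n => (tau_meas j _ hB).inter (DA_meas j hA n)
  rw [hinter (tau j k ⁻¹' B), hinter B, h1, h2, measure_iUnion hdisj hms,
    measure_iUnion (fun a b hab => Disjoint.preimage _ (hdisj hab)) (fun n => tau_meas j _ (hms n))]
  refine tsum_congr fun n => ?_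
  rw [spread_eq j hA hPI (en n) (hms n) (fun x hx => disjointed_subset (TA j A) n hx.2)]
  rw [spread_eq j hA hPI (en n + k) (tau_meas j _ (hms n)) ?_]
  · rw [tau_tau, add_neg_cancel_right]
  · intro x hx
    have h3 := disjointed_subset (TA j A) n hx.2
    simp only [TA, tau, Set.mem_preimage] at h3 ⊢
    have : x + j (-(en n + k)) = x + j (-k) + j (-(en n)) := by simp only [map_neg, map_add]; abel
    rw [this]; exact h3

theorem spread_sigmaFinite [IsFiniteMeasure m] : SigmaFinite (spread j m A) := by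
  refine ⟨⟨{ set := fun n => (⋃ n, TA j A n)ᶜ ∪ TA j A n, set_mem := fun _ => trivial, finite := fun n => ?_, spanning := ?_ }⟩⟩
  · refine (measure_union_le _ _).trans_lt ?_
    rw [spread_compl j hA, zero_add, spread_eq j hA hPI (en n) (TA_meas j hA n) (fun x hx => hx)]
    exact measure_lt_top _ _
  · rw [← Set.union_iUnion]
    exact Set.compl_union_self _

omit hPI in
theorem spread_noAtoms [MeasurableSingletonClass H] (hm : ∀ x, m {x} = 0) (x : H) : spread j m A {x} = 0 := by
  rw [spread_apply j hA (MeasurableSet.singleton x), ENNReal.tsum_eq_zero]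
  intro n
  refine measure_mono_null (t := {x - j (en n)}) ?_ (hm _)
  rintro y ⟨hy, _⟩
  rw [Set.mem_singleton_iff] at hy ⊢
  rw [← hy]; simp [tau]

theorem spread_mp (k : ℤ) : MeasurePreserving (tau j k) (spread j m A) (spread j m A) := by
  refine ⟨tau_meas j k, ?_⟩
  ext B hB
  rw [Measure.map_apply (tau_meas j k) hB, spread_inv j hA hPI k hB]

end

end Pool.Agent.X84.Ex
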