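import Pool.Agent.X84.Ex.Emb
import Pool.Agent.X84.Ex.Meas

namespace Pool.Agent.X84.Ex

open MeasureTheory Set Filter Topology

variable (S : Sys)

instance (n : ℕ) : NeZero (S.s n) := ⟨by have := S.hs n; omega⟩

/-- The invariant probability measure on digit sequences. -/
noncomputable def eta : Measure (K S) := Measure.addHaarMeasure ⊤

instance : IsProbabilityMeasure (eta S) := ⟨Measure.addHaarMeasure_self⟩

instance : (eta S).IsAddHaarMeasure := inferInstanceAs (Measure.addHaarMeasure (⊤ : TopologicalSpace.PositiveCompacts (K S))).IsAddHaarMeasure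

instance : (eta S).IsAddLeftInvariant := inferInstance

instance : (eta S).IsAddRightInvariant := inferInstance

instance : (eta S).WeaklyRegular := inferInstanceAs (Measure.addHaarMeasure (⊤ : TopologicalSpace.PositiveCompacts (K S))).WeaklyRegular

/-- Neighbourhoods of zero contain all sequences that start with many zeros. -/
theorem nhds_zero {U : Set (K S)} (hU : U ∈ 𝓝 (0 : K S)) : ∃ N0 : ℕ, ∀ e : K S, (∀ m, m < N0 → e m = 0) → e ∈ U := by
  rw [nhds_pi, Filter.mem_pi] at hU
  obtain ⟨I, hI, t, ht, hsub⟩ := hU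
  obtain ⟨N, hN⟩ := hI.bddAbove
  refine ⟨N + 1, fun e he => hsub ?_⟩
  intro i hi
  rw [he i (Nat.lt_succ_of_le (hN hi))]
  exact mem_of_mem_nhds (ht i)

/-- Translations by late digits act almost trivially on an integrable function. -/
theorem lc {f : K S → ℂ} (hf : Integrable f (eta S)) {e : ℝ} (he : 0 < e) :
    ∃ N0 : ℕ, ∀ n, N0 ≤ n → ∀ t : Fin (S.s n), ∫ c, ‖f (c + Pi.single n t) - f c‖ ∂(eta S) ≤ e := by
  obtain ⟨g, hg, hgi⟩ := hf.exists_boundedContinuous_integral_sub_le (show 0 < e / 3 by positivity)
  let F : C(K S, C(K S, ℂ)) := ContinuousMap.curry ⟨fun p : K S × K S => g (p.2 + p.1), by fun_prop⟩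
  have hF : ∀ᶠ x in 𝓝 (0 : K S), dist (F x) (F 0) < e / 3 := (F.continuous.tendsto 0).eventually (Metric.ball_mem_nhds _ (by positivity))
  obtain ⟨N0, hN0⟩ := nhds_zero S hF
  refine ⟨N0, fun n hn t => ?_⟩
  have h1 : dist (F (Pi.single n t)) (F 0) < e / 3 := by
    refine hN0 (Pi.single n t) fun m hm => ?_
    have hmn : m ≠ n := by omega
    simp [hmn]
  have h2 : ∀ c : K S, ‖g (c + Pi.single n t) - g c‖ ≤ e / 3 := by
    intro c
    have h3 := (ContinuousMap.dist_lt_iff (by positivity)).mp h1 c
    have h4 : F (Pi.single n t) c = g (c + Pi.single n t) := rfl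
    have h5 : F 0 c = g (c + 0) := rfl
    rw [h4, h5, add_zero, dist_eq_norm] at h3
    exact h3.le
  have hd : Integrable (fun c => ‖f c - g c‖) (eta S) := (hf.sub hgi).norm
  have hd2 : Integrable (fun c => ‖f (c + Pi.single n t) - g (c + Pi.single n t)‖) (eta S) := hd.comp_add_right (Pi.single n t)
  calc ∫ c, ‖f (c + Pi.single n t) - f c‖ ∂(eta S)
      ≤ ∫ c, (‖f (c + Pi.single n t) - g (c + Pi.single n t)‖ + (e / 3 + ‖f c - g c‖)) ∂(eta S) := by
        refine integral_mono ((hf.comp_add_right (Pi.single n t)).sub hf).norm (hd2.add ((integrable_const _).add hd)) fun c => ?_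
        have h6 : f (c + Pi.single n t) - f c = (f (c + Pi.single n t) - g (c + Pi.single n t)) + ((g (c + Pi.single n t) - g c) + -(f c - g c)) := by ring
        change ‖f (c + Pi.single n t) - f c‖ ≤ ‖f (c + Pi.single n t) - g (c + Pi.single n t)‖ + (e / 3 + ‖f c - g c‖)
        rw [h6]
        refine (norm_add_le _ _).trans (add_le_add le_rfl ((norm_add_le _ _).trans (add_le_add (h2 c) ?_)))
        rw [norm_neg]
    _ = ∫ c, ‖f c - g c‖ ∂(eta S) + (e / 3 + ∫ c, ‖f c - g c‖ ∂(eta S)) := by
        have hI : Integrable (fun c => e / 3 + ‖f c - g c‖) (eta S) := (integrable_const _).add hd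
        rw [integral_add hd2 hI, integral_add (integrable_const _) hd, integral_const]
        rw [integral_add_right_eq_self (fun c => ‖f c - g c‖) (Pi.single n t)]
        simp
    _ ≤ e := by linarith

/-- Sequences starting with `n` zeros. -/
def cyl (n : ℕ) : Set (K S) := {c | ∀ m, m < n → c m = 0}

theorem cyl_closed (n : ℕ) : IsClosed (cyl S n) := by
  unfold cyl
  simp only [Set.ofPred_forall]
  exact isClosed_iInter fun m => isClosed_iInter fun _ => isClosed_eq (continuous_apply m) continuous_const

theorem cyl_lower (n : ℕ) : 1 ≤ ((∏ l ∈ Finset.range n, S.s l : ℕ) : ENNReal) * eta S (cyl S n) := by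
  classical
  induction n with
  | zero =>
    have : cyl S 0 = Set.univ := Set.eq_univ_of_forall fun c m hm => absurd hm (Nat.not_lt_zero m)
    rw [this]; simp
  | succ n ih =>
    have h1 : cyl S n ⊆ ⋃ t : Fin (S.s n), (fun c : K S => c + Pi.single n t) ⁻¹' cyl S (n + 1) := by
      intro c hc
      rw [Set.mem_iUnion]
      refine ⟨-(c n), fun m hm => ?_⟩
      rcases Nat.lt_succ_iff_lt_or_eq.mp hm with h | h
      · have hmn : m ≠ n := by omega
        simp [hmn, hc m h]
      · subst h; simp
    have h2 : eta S (cyl S n) ≤ (S.s n : ENNReal) * eta S (cyl S (n + 1)) := by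
      refine (measure_mono h1).trans ((measure_iUnion_le _).trans (le_of_eq ?_))
      simp_rw [measure_preimage_add_right]
      rw [tsum_fintype, Finset.sum_const, Finset.card_univ, Fintype.card_fin, nsmul_eq_mul]
    refine ih.trans ?_
    rw [Finset.prod_range_succ]
    push_cast
    rw [mul_assoc]
    gcongr

noncomputable instance : MeasurableSpace (UniformSpace.Completion (ZN S)) := borel _
instance : BorelSpace (UniformSpace.Completion (ZN S)) := ⟨rfl⟩

/-- The image of the digit sequences. -/
def AA : Set (G S) := Set.range (emb S)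

theorem AA_meas : MeasurableSet (AA S) := (emb_closed S).isClosed_range.measurableSet

/-- The measure carried by the image. -/
noncomputable def mm : Measure (G S) := (eta S).map (emb S)

instance : IsProbabilityMeasure (mm S) := Measure.isProbabilityMeasure_map (emb_cont S).aemeasurable

theorem mm_apply {B : Set (G S)} (hB : MeasurableSet B) : mm S B = eta S (emb S ⁻¹' B) :=
  Measure.map_apply (emb_cont S).measurable hB

/-- Finite changes below `N`. -/
def Ch (N : ℕ) : Type := {u : K S // ∀ n, N ≤ n → u n = 0}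

instance (N : ℕ) : Countable (Ch S N) := by
  have : Function.Injective (fun u : Ch S N => fun i : Fin N => u.1 i) := by
    intro u v h
    refine Subtype.ext (funext fun n => ?_)
    by_cases hn : n < N
    · exact congrFun h ⟨n, hn⟩
    · rw [u.2 n (not_lt.mp hn), v.2 n (not_lt.mp hn)]
  exact this.countable

theorem PI_le (k : ℤ) (B : Set (G S)) (hB : MeasurableSet B) (hBA : B ⊆ AA S) :
    mm S (tau (jj S) k ⁻¹' B) ≤ mm S B := by
  rw [mm_apply S hB, mm_apply S (tau_meas (jj S) k hB)]
  set C := emb S ⁻¹' (tau (jj S) k ⁻¹' B) with hC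
  have hCm : MeasurableSet C := (emb_cont S).measurable (tau_meas (jj S) k hB)
  let P : Ch S (k.natAbs + 1) → Set (K S) := fun u => {c | emb S c + jj S k = emb S (c + u.1)}
  have hP : ∀ u, MeasurableSet (P u) := fun u =>
    (isClosed_eq ((emb_cont S).add continuous_const) ((emb_cont S).comp (continuous_id.add continuous_const))).measurableSet
  have h1 : C ⊆ ⋃ u, C ∩ P u := by
    intro c hc
    obtain ⟨c', hc'⟩ := hBA hc
    have h2 : emb S c + jj S k = emb S c' := hc'.symm
    rw [Set.mem_iUnion]
    refine ⟨⟨c' - c, fun n hn => ?_⟩, hc, ?_⟩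
    · rw [Pi.sub_apply, rigid_tail S c c' k h2 n hn, sub_self]
    · change emb S c + jj S k = emb S (c + (c' - c))
      rw [add_sub_cancel]; exact h2
  refine (measure_mono h1).trans ((measure_iUnion_le _).trans ?_)
  have h3 : ∀ u, eta S (C ∩ P u) = eta S ((fun c : K S => c + -u.1) ⁻¹' (C ∩ P u)) := fun u =>
    (measure_preimage_add_right _ _ _).symm
  rw [tsum_congr h3, ← measure_iUnion]
  · refine measure_mono (Set.iUnion_subset fun u c' hc' => ?_)
    obtain ⟨h4, h5⟩ := hc'
    have h6 : emb S (c' + -u.1) + jj S k = emb S (c' + -u.1 + u.1) := h5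
    rw [neg_add_cancel_right] at h6
    have h7 : emb S (c' + -u.1) + jj S k ∈ B := h4
    rw [h6] at h7
    exact h7
  · intro u v huv
    rw [Function.onFun, Set.disjoint_left]
    rintro c ⟨_, h5⟩ ⟨_, h6⟩
    have h7 : emb S (c + -u.1) + jj S k = emb S (c + -u.1 + u.1) := h5
    have h8 : emb S (c + -v.1) + jj S k = emb S (c + -v.1 + v.1) := h6
    rw [neg_add_cancel_right] at h7 h8
    have h9 : emb S (c + -u.1) = emb S (c + -v.1) := add_right_cancel (h7.trans h8.symm)
    have h10 := emb_inj S h9
    apply huv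
    apply Subtype.ext
    have h11 : -u.1 = -v.1 := add_left_cancel h10
    exact neg_injective h11
  · intro u
    exact (measurable_add_const _) (hCm.inter (hP u))

theorem PI (k : ℤ) (B : Set (G S)) (hB : MeasurableSet B) (hBA : B ⊆ AA S) (hBk : tau (jj S) k ⁻¹' B ⊆ AA S) :
    mm S (tau (jj S) k ⁻¹' B) = mm S B := by
  refine le_antisymm (PI_le S k B hB hBA) ?_
  have := PI_le S (-k) (tau (jj S) k ⁻¹' B) (tau_meas (jj S) k hB) hBk
  rwa [tau_tau, neg_add_cancel, tau_zero] at this

/-- The infinite invariant measure. -/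
noncomputable def mu : Measure (G S) := spread (jj S) (mm S) (AA S)

theorem mu_infinite : mu S Set.univ = ⊤ := by
  have key : ∀ n : ℕ, ((n : ℕ) : ENNReal) ≤ mu S Set.univ := by
    intro n
    set M : ℕ := (n + 1) * ∏ l ∈ Finset.range n, S.s l with hM
    set B : Set (G S) := emb S '' cyl S n with hB
    have hBm : MeasurableSet B := ((emb_closed S).isClosedMap _ (cyl_closed S n)).measurableSet
    have hBA : B ⊆ AA S := Set.image_subset_range _ _
    have h1 : mu S B = eta S (cyl S n) := by
      unfold mu
      rw [spread_eq (jj S) (AA_meas S) (PI S) 0 hBm (by rw [neg_zero, tau_zero]; exact hBA), tau_zero, mm_apply S hBm, hB,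
        (emb_inj S).preimage_image]
    have h2 : ∀ k : Fin M, mu S (tau (jj S) (-(k : ℕ)) ⁻¹' B) = eta S (cyl S n) := by
      intro k
      rw [← h1]
      exact spread_inv (jj S) (AA_meas S) (PI S) _ hBm
    have h3 : mu S (⋃ k : Fin M, tau (jj S) (-(k : ℕ)) ⁻¹' B) = M * eta S (cyl S n) := by
      rw [measure_iUnion]
      · rw [tsum_congr h2, tsum_fintype, Finset.sum_const, Finset.card_univ, Fintype.card_fin, nsmul_eq_mul]
      · intro a b hab
        rw [Function.onFun, Set.disjoint_left]
        rintro x ⟨c, hc, hcx⟩ ⟨c', hc', hcx'⟩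
        apply hab
        have h4 : emb S c + jj S ((a : ℕ) - (b : ℕ) : ℤ) = emb S c' := by
          rw [hcx, hcx']
          simp only [tau, map_sub, map_neg]
          abel
        have hrad : (M : ℤ) ≤ rad S.s S.d n := by
          have h5 := Finset.sum_nonneg (s := Finset.range n) fun l _ => mx_nonneg S l
          rw [hM]; unfold rad; push_cast; linarith
        have h5 := sep S c c' _ h4 n (fun m hm => by rw [hc m hm, hc' m hm]) (by
          refine le_trans ?_ hrad
          have ha := a.2
          have hb := b.2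
          rw [abs_le]; constructor <;> omega)
        have h6 : ((a : ℕ) : ℤ) = (b : ℕ) := by linarith [h5.1]
        exact Fin.ext (by exact_mod_cast h6)
      · intro k
        exact tau_meas (jj S) _ hBm
    calc ((n : ℕ) : ENNReal) ≤ ((n + 1 : ℕ) : ENNReal) * 1 := by rw [mul_one]; exact_mod_cast Nat.le_succ n
      _ ≤ ((n + 1 : ℕ) : ENNReal) * (((∏ l ∈ Finset.range n, S.s l : ℕ) : ENNReal) * eta S (cyl S n)) := by
          gcongr; exact cyl_lower S n
      _ = M * eta S (cyl S n) := by rw [hM, ← mul_assoc]; push_cast; rfl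
      _ ≤ mu S Set.univ := by rw [← h3]; exact measure_mono (Set.subset_univ _)
  exact ENNReal.eq_top_of_forall_nnreal_le fun r => (by
    obtain ⟨n, hn⟩ := exists_nat_ge r
    exact le_trans (by exact_mod_cast hn) (key n))

end Pool.Agent.X84.Ex
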