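import Pool.Agent.X84.Ex.Seq

namespace Pool.Agent.X84.Ex

open Finset

variable (S : Sys)

/-- Coefficient families. -/
abbrev Coef := ∀ n, Fin (S.s n) → ℤ

/-- The integer combination. -/
def ev (N : ℕ) (a : Coef S) : ℤ := ∑ n ∈ range N, ∑ i, a n i * S.d n i

/-- The weight. -/
noncomputable def wt (N : ℕ) (a : Coef S) : ℝ := ∑ n ∈ range N, (1 / 8 : ℝ) ^ (n + 1) * ∑ i, |(a n i : ℝ)|

/-- The cost of a representation. -/
noncomputable def val (x : ℤ) (p : ℕ × Coef S) : ℝ := |((x - ev S p.1 p.2 : ℤ) : ℝ)| + wt S p.1 p.2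

/-- The norm on the integers. -/
noncomputable def nu (x : ℤ) : ℝ := ⨅ p : ℕ × Coef S, val S x p

theorem wt_nonneg (N : ℕ) (a : Coef S) : 0 ≤ wt S N a :=
  Finset.sum_nonneg fun _ _ => mul_nonneg (by positivity) (Finset.sum_nonneg fun _ _ => abs_nonneg _)

theorem val_nonneg (x : ℤ) (p : ℕ × Coef S) : 0 ≤ val S x p := add_nonneg (abs_nonneg _) (wt_nonneg S _ _)

theorem bdd (x : ℤ) : BddBelow (Set.range fun p : ℕ × Coef S => val S x p) :=
  ⟨0, by rintro _ ⟨p, rfl⟩; exact val_nonneg S x p⟩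

theorem nu_le (x : ℤ) (p : ℕ × Coef S) : nu S x ≤ val S x p := ciInf_le (bdd S x) p

theorem nu_nonneg (x : ℤ) : 0 ≤ nu S x := Real.iInf_nonneg fun p => val_nonneg S x p

theorem nu_near (x : ℤ) (r : ℝ) (h : nu S x < r) : ∃ p, val S x p < r := exists_lt_of_ciInf_lt h

/-- Truncation. -/
def tr (N : ℕ) (a : Coef S) : Coef S := fun n => if n < N then a n else 0

theorem ev_tr (N N' : ℕ) (h : N ≤ N') (a : Coef S) : ev S N' (tr S N a) = ev S N a := by
  unfold ev
  rw [← Finset.sum_subset (Finset.range_mono h) (fun n _ hn => by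
    simp only [tr, if_neg (fun h' => hn (Finset.mem_range.mpr h')), Pi.zero_apply, zero_mul, Finset.sum_const_zero])]
  refine Finset.sum_congr rfl fun n hn => ?_
  simp only [tr, if_pos (Finset.mem_range.mp hn)]

theorem wt_tr (N N' : ℕ) (h : N ≤ N') (a : Coef S) : wt S N' (tr S N a) = wt S N a := by
  unfold wt
  rw [← Finset.sum_subset (Finset.range_mono h) (fun n _ hn => by
    simp only [tr, if_neg (fun h' => hn (Finset.mem_range.mpr h')), Pi.zero_apply, Int.cast_zero, abs_zero, Finset.sum_const_zero, mul_zero])]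
  refine Finset.sum_congr rfl fun n hn => ?_
  simp only [tr, if_pos (Finset.mem_range.mp hn)]

theorem nu_add (x y : ℤ) : nu S (x + y) ≤ nu S x + nu S y := by
  refine le_of_forall_pos_le_add fun e he => ?_
  obtain ⟨p, hp⟩ := nu_near S x (nu S x + e / 2) (by linarith)
  obtain ⟨q, hq⟩ := nu_near S y (nu S y + e / 2) (by linarith)
  set N := max p.1 q.1 with hN
  refine (nu_le S (x + y) (N, tr S p.1 p.2 + tr S q.1 q.2)).trans ?_
  have h1 : ev S N (tr S p.1 p.2 + tr S q.1 q.2) = ev S p.1 p.2 + ev S q.1 q.2 := by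
    rw [← ev_tr S p.1 N (le_max_left _ _), ← ev_tr S q.1 N (le_max_right _ _)]
    unfold ev
    rw [← Finset.sum_add_distrib]
    refine Finset.sum_congr rfl fun n _ => ?_
    rw [← Finset.sum_add_distrib]
    refine Finset.sum_congr rfl fun i _ => ?_
    simp only [Pi.add_apply]; ring
  have h2 : wt S N (tr S p.1 p.2 + tr S q.1 q.2) ≤ wt S p.1 p.2 + wt S q.1 q.2 := by
    rw [← wt_tr S p.1 N (le_max_left _ _), ← wt_tr S q.1 N (le_max_right _ _)]
    unfold wt
    rw [← Finset.sum_add_distrib]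
    refine Finset.sum_le_sum fun n _ => ?_
    rw [← mul_add, ← Finset.sum_add_distrib]
    refine mul_le_mul_of_nonneg_left (Finset.sum_le_sum fun i _ => ?_) (by positivity)
    simp only [Pi.add_apply, Int.cast_add]
    exact abs_add_le _ _
  have h3 : |((x + y - (ev S p.1 p.2 + ev S q.1 q.2) : ℤ) : ℝ)| ≤ |((x - ev S p.1 p.2 : ℤ) : ℝ)| + |((y - ev S q.1 q.2 : ℤ) : ℝ)| := by
    have : ((x + y - (ev S p.1 p.2 + ev S q.1 q.2) : ℤ) : ℝ) = ((x - ev S p.1 p.2 : ℤ) : ℝ) + ((y - ev S q.1 q.2 : ℤ) : ℝ) := by push_cast; ring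
    rw [this]; exact abs_add_le _ _
  unfold val at hp hq ⊢
  simp only
  rw [h1]
  linarith

theorem nu_neg_le (x : ℤ) : nu S (-x) ≤ nu S x := by
  refine le_ciInf fun p => ?_
  refine (nu_le S (-x) (p.1, -p.2)).trans (le_of_eq ?_)
  have h1 : ev S p.1 (-p.2) = - ev S p.1 p.2 := by
    unfold ev
    rw [← Finset.sum_neg_distrib]
    refine Finset.sum_congr rfl fun n _ => ?_
    rw [← Finset.sum_neg_distrib]
    refine Finset.sum_congr rfl fun i _ => ?_
    simp only [Pi.neg_apply]; ring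
  have h2 : wt S p.1 (-p.2) = wt S p.1 p.2 := by
    unfold wt
    refine Finset.sum_congr rfl fun n _ => ?_
    congr 1
    refine Finset.sum_congr rfl fun i _ => ?_
    simp only [Pi.neg_apply, Int.cast_neg, abs_neg]
  unfold val
  simp only
  rw [h1, h2]
  congr 1
  rw [← abs_neg]
  congr 1
  push_cast; ring

theorem nu_neg (x : ℤ) : nu S (-x) = nu S x :=
  le_antisymm (nu_neg_le S x) (by have := nu_neg_le S (-x); rwa [neg_neg] at this)

theorem nu_zero : nu S 0 = 0 := by
  refine le_antisymm ((nu_le S 0 (0, 0)).trans (le_of_eq ?_)) (nu_nonneg S 0)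
  simp [val, ev, wt]

theorem nu_d (n : ℕ) (i : Fin (S.s n)) : nu S (S.d n i) ≤ (1 / 8 : ℝ) ^ (n + 1) := by
  classical
  refine (nu_le S _ (n + 1, Pi.single n (Pi.single i 1))).trans (le_of_eq ?_)
  have h1 : ev S (n + 1) (Pi.single n (Pi.single i 1)) = S.d n i := by
    unfold ev
    rw [Finset.sum_eq_single n]
    · simp [Pi.single_apply]
    · intro m _ hm; simp [hm]
    · intro h; exact absurd (Finset.mem_range.mpr (Nat.lt_succ_self n)) h
  have h2 : wt S (n + 1) (Pi.single n (Pi.single i 1)) = (1 / 8 : ℝ) ^ (n + 1) := by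
    unfold wt
    rw [Finset.sum_eq_single n]
    · have : ∑ j, |(((Pi.single n (Pi.single i 1) : Coef S) n j : ℤ) : ℝ)| = 1 := by
        rw [Finset.sum_eq_single i]
        · simp
        · intro j _ hj; simp [hj]
        · intro h; exact absurd (Finset.mem_univ i) h
      rw [this, mul_one]
    · intro m _ hm; simp [hm]
    · intro h; exact absurd (Finset.mem_range.mpr (Nat.lt_succ_self n)) h
  unfold val
  simp only
  rw [h1, h2]
  simp

theorem nu_lower (x : ℤ) (N : ℕ) (h : nu S x < (1 / 8 : ℝ) ^ (N + 1)) (hx : |x| ≤ rad S.s S.d (N + 1)) : x = 0 := by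
  obtain ⟨⟨N', a⟩, hp⟩ := nu_near S x _ h
  unfold val at hp
  simp only at hp
  have hw := wt_nonneg S N' a
  have hle1 : (1 / 8 : ℝ) ^ (N + 1) ≤ 1 := pow_le_one₀ (by norm_num) (by norm_num)
  have h1 : x = ev S N' a := by
    have h2 : |((x - ev S N' a : ℤ) : ℝ)| < 1 := by linarith
    rw [← Int.cast_abs] at h2
    have h3 : |x - ev S N' a| < 1 := by exact_mod_cast h2
    have h4 := Int.abs_lt_one_iff.mp h3
    omega
  have h5 : wt S N' (tr S N' a) < (1 / 8 : ℝ) ^ (N + 1) := by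
    rw [wt_tr S N' N' le_rfl]
    have := abs_nonneg (((x - ev S N' a : ℤ) : ℝ))
    linarith
  have h6 : ∀ n, (1 / 8 : ℝ) ^ (n + 1) * ∑ i, |((tr S N' a) n i : ℝ)| < (1 / 8 : ℝ) ^ (N + 1) := by
    intro n
    by_cases hn : n < N'
    · refine lt_of_le_of_lt ?_ h5
      unfold wt
      exact Finset.single_le_sum (f := fun n => (1 / 8 : ℝ) ^ (n + 1) * ∑ i, |((tr S N' a) n i : ℝ)|)
        (fun n _ => mul_nonneg (by positivity) (Finset.sum_nonneg fun _ _ => abs_nonneg _)) (Finset.mem_range.mpr hn)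
    · simp only [tr, if_neg hn, Pi.zero_apply, Int.cast_zero, abs_zero, Finset.sum_const_zero, mul_zero]
      positivity
  have h7 : ∀ n, (∑ i, |((tr S N' a) n i : ℝ)|) = ((∑ i, |(tr S N' a) n i| : ℤ) : ℝ) := by
    intro n; push_cast; rfl
  have h8 : ∀ n, ∑ i, |(tr S N' a) n i| ≤ 8 ^ (n + 1) := by
    intro n
    have h9 := h6 n
    rw [h7 n] at h9
    have h10 : ((∑ i, |(tr S N' a) n i| : ℤ) : ℝ) ≤ (8 : ℝ) ^ (n + 1) := by
      have h11 : (1 / 8 : ℝ) ^ (n + 1) * ((∑ i, |(tr S N' a) n i| : ℤ) : ℝ) ≤ 1 := (h9.trans_le hle1).le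
      rw [one_div, inv_pow, inv_mul_le_iff₀ (by positivity), mul_one] at h11
      exact h11
    exact_mod_cast h10
  have h12 : ∀ n, n < N + 1 → tr S N' a n = 0 := by
    intro n hn
    have h9 := h6 n
    rw [h7 n] at h9
    have h10 : (1 / 8 : ℝ) ^ (N + 1) ≤ (1 / 8 : ℝ) ^ (n + 1) := pow_le_pow_of_le_one (by norm_num) (by norm_num) (by omega)
    have h11 : ((∑ i, |(tr S N' a) n i| : ℤ) : ℝ) < 1 := by
      have h13 : (1 / 8 : ℝ) ^ (n + 1) * ((∑ i, |(tr S N' a) n i| : ℤ) : ℝ) < (1 / 8 : ℝ) ^ (n + 1) * 1 := by linarith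
      exact lt_of_mul_lt_mul_left h13 (by positivity)
    have h14 : ∑ i, |(tr S N' a) n i| < 1 := by exact_mod_cast h11
    have h15 : ∑ i, |(tr S N' a) n i| = 0 := le_antisymm (by omega) (Finset.sum_nonneg fun _ _ => abs_nonneg _)
    rw [Finset.sum_eq_zero_iff_of_nonneg (fun i _ => abs_nonneg _)] at h15
    funext i
    exact abs_eq_zero.mp (h15 i (Finset.mem_univ i))
  rw [h1, ← ev_tr S N' N' le_rfl]
  rcases tb S (tr S N' a) h8 (N + 1) h12 N' with h16 | h16
  · unfold ev
    refine Finset.sum_eq_zero fun n hn => ?_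
    rw [h16 n (Finset.mem_range.mp hn)]
    simp
  · exfalso
    have h17 : ∑ n ∈ range N', ∑ i, tr S N' a n i * S.d n i = x := by
      rw [h1, ← ev_tr S N' N' le_rfl]; rfl
    rw [h17] at h16
    linarith

theorem le_rad (N : ℕ) : (N : ℤ) + 2 * ∑ l ∈ range N, mx S.s S.d l ≤ rad S.s S.d N := by
  unfold rad
  have := prod_pos S N
  nlinarith

theorem nu_eq_zero (x : ℤ) (h : nu S x = 0) : x = 0 := by
  refine nu_lower S x x.natAbs (by rw [h]; positivity) ?_
  refine le_trans ?_ (le_rad S _)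
  have := Finset.sum_nonneg (s := range (x.natAbs + 1)) fun l _ => mx_nonneg S l
  push_cast
  rw [Int.abs_eq_natAbs]
  push_cast
  omega

/-- The integers with the norm `nu`. -/
def ZN (_S : Sys) : Type := ℤ

noncomputable instance : AddCommGroup (ZN S) := inferInstanceAs (AddCommGroup ℤ)
instance : Countable (ZN S) := inferInstanceAs (Countable ℤ)

/-- The group norm. -/
noncomputable def normZ : AddGroupNorm (ZN S) where
  toFun := nu S
  map_zero' := nu_zero S
  add_le' := nu_add S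
  neg' := nu_neg S
  eq_zero_of_map_eq_zero' := nu_eq_zero S

noncomputable instance : NormedAddCommGroup (ZN S) := (normZ S).toNormedAddCommGroup

theorem norm_ZN (x : ZN S) : ‖x‖ = nu S x := rfl

/-- The completed group. -/
abbrev G := UniformSpace.Completion (ZN S)

/-- The homomorphism from the integers. -/
noncomputable def jj : ℤ →+ G S where
  toFun k := ((show ZN S from k : ZN S) : G S)
  map_zero' := UniformSpace.Completion.coe_zero
  map_add' _ _ := UniformSpace.Completion.coe_add _ _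

theorem norm_jj (k : ℤ) : ‖jj S k‖ = nu S k := UniformSpace.Completion.norm_coe _

theorem denseRange_jj : DenseRange (jj S) := by
  have h := UniformSpace.Completion.denseRange_coe (α := ZN S)
  exact h

end Pool.Agent.X84.Ex
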