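import Pool.Agent.X84.Ex.Block2

namespace Pool.Agent.X84.Ex

open Finset

/-- Total size of a block. -/
def mx (s : ℕ → ℕ) (d : ∀ n, Fin (s n) → ℤ) (n : ℕ) : ℤ := ∑ i, |d n i|

/-- Bound for the combinations of the blocks below `n`. -/
def lowB (s : ℕ → ℕ) (d : ∀ n, Fin (s n) → ℤ) (n : ℕ) : ℤ := ∑ l ∈ range n, 8 ^ (l + 1) * mx s d l

/-- Radius at level `n`. -/
def rad (s : ℕ → ℕ) (d : ∀ n, Fin (s n) → ℤ) (n : ℕ) : ℤ :=
  n + 2 * ∑ l ∈ range n, mx s d l + (n + 1) * ∏ l ∈ range n, (s l : ℤ)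

/-- A sequence of blocks. -/
structure Sys where
  s : ℕ → ℕ
  d : ∀ n, Fin (s n) → ℤ
  hs : ∀ n, 2 ≤ s n
  big : ∀ n (a : Fin (s n) → ℤ), a ≠ 0 → ∑ i, |a i| ≤ 8 ^ (n + 1) → rad s d n + lowB s d n < |∑ i, a i * d n i|
  det : ∀ (n : ℕ) (z u : ℂ), ‖z‖ = 1 → ‖u‖ = 1 → 1 / ((n : ℝ) + 1) ≤ ‖z - 1‖ → (s n : ℝ) / 32 ≤ ∑ i, ‖z ^ (d n i) - u‖

/-- A finite set of integers. -/
structure Blk where
  s : ℕ
  d : Fin s → ℤ

/-- The total size. -/
def Blk.m (b : Blk) : ℕ := (∑ i, |b.d i|).toNat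

theorem Blk.m_eq (b : Blk) : (b.m : ℤ) = ∑ i, |b.d i| := Int.toNat_of_nonneg (Finset.sum_nonneg fun _ _ => abs_nonneg _)

/-- The block used at stage `n` with state `(sum of sizes, product of cardinalities, weighted sum)`. -/
noncomputable def pick (n : ℕ) (st : ℕ × ℕ × ℕ) : Blk :=
  ⟨(block (8 ^ (n + 1)) (n + 2 * st.1 + (n + 1) * st.2.1 + st.2.2) (n + 1) n.succ_pos).choose,
   (block (8 ^ (n + 1)) (n + 2 * st.1 + (n + 1) * st.2.1 + st.2.2) (n + 1) n.succ_pos).choose_spec.choose⟩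

theorem pick_spec (n : ℕ) (st : ℕ × ℕ × ℕ) : 2 ≤ (pick n st).s ∧
    (∀ a : Fin (pick n st).s → ℤ, a ≠ 0 → ∑ i, |a i| ≤ ((8 ^ (n + 1) : ℕ) : ℤ) →
      ((n + 2 * st.1 + (n + 1) * st.2.1 + st.2.2 : ℕ) : ℤ) < |∑ i, a i * (pick n st).d i|) ∧
    ∀ z u : ℂ, ‖z‖ = 1 → ‖u‖ = 1 → 1 / (((n + 1 : ℕ)) : ℝ) ≤ ‖z - 1‖ → ((pick n st).s : ℝ) / 32 ≤ ∑ i, ‖z ^ ((pick n st).d i) - u‖ :=
  (block (8 ^ (n + 1)) (n + 2 * st.1 + (n + 1) * st.2.1 + st.2.2) (n + 1) n.succ_pos).choose_spec.choose_spec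

/-- The states. -/
noncomputable def st : ℕ → ℕ × ℕ × ℕ
  | 0 => (0, 1, 0)
  | n + 1 => ((st n).1 + (pick n (st n)).m, (st n).2.1 * (pick n (st n)).s, (st n).2.2 + 8 ^ (n + 1) * (pick n (st n)).m)

/-- The system of blocks exists. -/
theorem exists_sys : Nonempty Sys := by
  let s : ℕ → ℕ := fun n => (pick n (st n)).s
  let d : ∀ n, Fin (s n) → ℤ := fun n => (pick n (st n)).d
  have hm : ∀ n, mx s d n = ((pick n (st n)).m : ℤ) := fun n => (Blk.m_eq _).symm
  have h1 : ∀ n, ((st n).1 : ℤ) = ∑ l ∈ range n, mx s d l := by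
    intro n
    induction n with
    | zero => simp [st]
    | succ n ih => rw [Finset.sum_range_succ, ← ih, hm n]; simp [st]
  have h2 : ∀ n, ((st n).2.1 : ℤ) = ∏ l ∈ range n, (s l : ℤ) := by
    intro n
    induction n with
    | zero => simp [st]
    | succ n ih => rw [Finset.prod_range_succ, ← ih]; simp [st, s]
  have h3 : ∀ n, ((st n).2.2 : ℤ) = lowB s d n := by
    intro n
    induction n with
    | zero => simp [st, lowB]
    | succ n ih => unfold lowB at ih ⊢; rw [Finset.sum_range_succ, ← ih, hm n]; simp [st]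
  refine ⟨⟨s, d, fun n => (pick_spec n (st n)).1, fun n a ha hal => ?_, fun n z u hz hu h => ?_⟩⟩
  · have := (pick_spec n (st n)).2.1 a ha (by push_cast; exact hal)
    have h4 : rad s d n + lowB s d n = ((n + 2 * (st n).1 + (n + 1) * (st n).2.1 + (st n).2.2 : ℕ) : ℤ) := by
      unfold rad
      push_cast
      rw [h1 n, h2 n, h3 n]
    rw [h4]
    exact this
  · exact (pick_spec n (st n)).2.2 z u hz hu (by push_cast; exact h)

variable (S : Sys)

theorem mx_nonneg (n : ℕ) : 0 ≤ mx S.s S.d n := Finset.sum_nonneg fun _ _ => abs_nonneg _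

theorem abs_d_le (n : ℕ) (i : Fin (S.s n)) : |S.d n i| ≤ mx S.s S.d n :=
  Finset.single_le_sum (f := fun i => |S.d n i|) (fun _ _ => abs_nonneg _) (Finset.mem_univ i)

theorem prod_pos (n : ℕ) : 0 < ∏ l ∈ range n, (S.s l : ℤ) :=
  Finset.prod_pos fun l _ => by have := S.hs l; exact_mod_cast (by omega : 0 < S.s l)

theorem rad_mono : Monotone (rad S.s S.d) := by
  refine monotone_nat_of_le_succ fun n => ?_
  unfold rad
  rw [Finset.sum_range_succ, Finset.prod_range_succ]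
  have h1 := mx_nonneg S n
  have h2 := prod_pos S n
  have h3 : (1 : ℤ) ≤ S.s n := by have := S.hs n; exact_mod_cast (by omega : 1 ≤ S.s n)
  have h4 : (∏ l ∈ range n, (S.s l : ℤ)) ≤ (∏ l ∈ range n, (S.s l : ℤ)) * S.s n := le_mul_of_one_le_right h2.le h3
  push_cast
  nlinarith

/-- A nonzero combination with small coefficients is large. -/
theorem tb (a : ∀ n, Fin (S.s n) → ℤ) (ha : ∀ n, ∑ i, |a n i| ≤ 8 ^ (n + 1)) (n0 : ℕ)
    (h0 : ∀ n, n < n0 → a n = 0) : ∀ N, (∀ n, n < N → a n = 0) ∨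
      rad S.s S.d n0 < |∑ n ∈ range N, ∑ i, a n i * S.d n i| := by
  intro N
  induction N with
  | zero => left; intro n hn; omega
  | succ N ih =>
    by_cases hN : a N = 0
    · have h1 : ∑ n ∈ range (N + 1), ∑ i, a n i * S.d n i = ∑ n ∈ range N, ∑ i, a n i * S.d n i := by
        rw [Finset.sum_range_succ, hN]; simp
      rw [h1]
      rcases ih with ih | ih
      · left
        intro n hn
        rcases Nat.lt_succ_iff_lt_or_eq.mp hn with h | h
        · exact ih n h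
        · rw [h]; exact hN
      · right; exact ih
    · right
      have hn0 : n0 ≤ N := by
        by_contra hcon
        exact hN (h0 N (not_le.mp hcon))
      have h1 := S.big N (a N) hN (ha N)
      have h2 : |∑ n ∈ range N, ∑ i, a n i * S.d n i| ≤ lowB S.s S.d N := by
        unfold lowB
        refine (Finset.abs_sum_le_sum_abs _ _).trans (Finset.sum_le_sum fun n _ => ?_)
        refine (Finset.abs_sum_le_sum_abs _ _).trans ?_
        unfold mx
        rw [Finset.mul_sum]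
        refine Finset.sum_le_sum fun i _ => ?_
        rw [abs_mul]
        refine mul_le_mul_of_nonneg_right ?_ (abs_nonneg _)
        exact (Finset.single_le_sum (f := fun i => |a n i|) (fun _ _ => abs_nonneg _) (Finset.mem_univ i)).trans (ha n)
      have h3 := rad_mono S hn0
      rw [Finset.sum_range_succ, add_comm]
      have h4 : |∑ i, a N i * S.d N i| - |∑ n ∈ range N, ∑ i, a n i * S.d n i| ≤ |∑ i, a N i * S.d N i + ∑ n ∈ range N, ∑ i, a n i * S.d n i| := by
        have := abs_sub_abs_le_abs_sub (∑ i, a N i * S.d N i) (-(∑ n ∈ range N, ∑ i, a n i * S.d n i))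
        rw [abs_neg, sub_neg_eq_add] at this
        exact this
      linarith

/-- Partial sums of digits. -/
def D (c : ∀ n, Fin (S.s n)) (N : ℕ) : ℤ := ∑ n ∈ range N, S.d n (c n)

theorem abs_D_le (c : ∀ n, Fin (S.s n)) (N : ℕ) : |D S c N| ≤ ∑ n ∈ range N, mx S.s S.d n :=
  (Finset.abs_sum_le_sum_abs _ _).trans (Finset.sum_le_sum fun n _ => abs_d_le S n (c n))

theorem d_inj (n : ℕ) {i j : Fin (S.s n)} (h : S.d n i = S.d n j) : i = j := by
  by_contra hij
  have h1 := S.big n (Pi.single i 1 - Pi.single j 1) ?_ ?_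
  · have h2 : ∑ k, (Pi.single i 1 - Pi.single j 1 : Fin (S.s n) → ℤ) k * S.d n k = S.d n i - S.d n j := by
      simp only [Pi.sub_apply, sub_mul, Finset.sum_sub_distrib]
      simp [Pi.single_apply]
    rw [h2, h, sub_self, abs_zero] at h1
    have h3 : 0 ≤ rad S.s S.d n := by
      unfold rad
      have := prod_pos S n
      have := Finset.sum_nonneg (s := range n) fun l _ => mx_nonneg S l
      positivity
    have h4 : 0 ≤ lowB S.s S.d n := Finset.sum_nonneg fun l _ => mul_nonneg (by positivity) (mx_nonneg S l)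
    linarith
  · intro h0
    have := congrFun h0 i
    simp [hij] at this
  · calc ∑ k, |(Pi.single i 1 - Pi.single j 1 : Fin (S.s n) → ℤ) k| ≤ ∑ k, ((Pi.single i 1 : Fin (S.s n) → ℤ) k + (Pi.single j 1 : Fin (S.s n) → ℤ) k) := by
          refine Finset.sum_le_sum fun k _ => ?_
          have h5 : (0 : ℤ) ≤ (Pi.single i 1 : Fin (S.s n) → ℤ) k := by rw [Pi.single_apply]; split_ifs <;> norm_num
          have h6 : (0 : ℤ) ≤ (Pi.single j 1 : Fin (S.s n) → ℤ) k := by rw [Pi.single_apply]; split_ifs <;> norm_num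
          rw [Pi.sub_apply, abs_le]; constructor <;> linarith
      _ = 2 := by rw [Finset.sum_add_distrib]; simp
      _ ≤ 8 ^ (n + 1) := by
          calc (2 : ℤ) ≤ 8 ^ 1 := by norm_num
            _ ≤ 8 ^ (n + 1) := pow_le_pow_right₀ (by norm_num) (by omega)

/-- Differences of digit sums starting at level `n0` are large. -/
theorem gap (c c' : ∀ n, Fin (S.s n)) (n0 : ℕ) (h : ∀ n, n < n0 → c n = c' n) (N : ℕ) :
    (∀ n, n < N → c n = c' n) ∨ rad S.s S.d n0 < |D S c' N - D S c N| := by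
  classical
  have hsum : ∀ n, ∑ k, |(Pi.single (c' n) 1 - Pi.single (c n) 1 : Fin (S.s n) → ℤ) k| ≤ 8 ^ (n + 1) := by
    intro n
    calc ∑ k, |(Pi.single (c' n) 1 - Pi.single (c n) 1 : Fin (S.s n) → ℤ) k| ≤ ∑ k, ((Pi.single (c' n) 1 : Fin (S.s n) → ℤ) k + (Pi.single (c n) 1 : Fin (S.s n) → ℤ) k) := by
          refine Finset.sum_le_sum fun k _ => ?_
          have h5 : (0 : ℤ) ≤ (Pi.single (c' n) 1 : Fin (S.s n) → ℤ) k := by rw [Pi.single_apply]; split_ifs <;> norm_num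
          have h6 : (0 : ℤ) ≤ (Pi.single (c n) 1 : Fin (S.s n) → ℤ) k := by rw [Pi.single_apply]; split_ifs <;> norm_num
          rw [Pi.sub_apply, abs_le]; constructor <;> linarith
      _ = 2 := by rw [Finset.sum_add_distrib]; simp
      _ ≤ 8 ^ (n + 1) := by
          calc (2 : ℤ) ≤ 8 ^ 1 := by norm_num
            _ ≤ 8 ^ (n + 1) := pow_le_pow_right₀ (by norm_num) (by omega)
  have h1 := tb S (fun n => Pi.single (c' n) 1 - Pi.single (c n) 1) hsum n0
    (fun n hn => by rw [h n hn, sub_self]) N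
  rcases h1 with h1 | h1
  · left
    intro n hn
    by_contra hne
    have h2 := congrFun (h1 n hn) (c n)
    simp [hne] at h2
  · right
    have h2 : ∑ n ∈ range N, ∑ k, (Pi.single (c' n) 1 - Pi.single (c n) 1 : Fin (S.s n) → ℤ) k * S.d n k = D S c' N - D S c N := by
      unfold D
      rw [← Finset.sum_sub_distrib]
      refine Finset.sum_congr rfl fun n _ => ?_
      simp only [Pi.sub_apply, sub_mul, Finset.sum_sub_distrib]
      simp [Pi.single_apply]
    rw [← h2]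
    exact h1

end Pool.Agent.X84.Ex
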